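import Pool.Agent.Helper41.KV.DefsD

/-!
# Project KV (`MP_66be51_an`), section D: goals

Notation in the proofs: `σ, λ, ρ` at time `t`, `ℓ = log σ`, `x = σ + λ y = σ(1 + ρ y)`, `κ = k_1`,
`ζ = k_1 + w_1 = κ Z`, `F̂(t,y) = λ^{1/2} F(t,x)`, `∂_s = λ^3 ∂_t` (at fixed `y`). `C` = constants that do not
depend on `t, y`. `ρ^δ (1+|ℓ|)^n <= C` for every `δ > 0` (as `ℓ = log ρ/(2α)`).
-/

namespace Pool.Agent.Helper41.KV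

open Real MeasureTheory Pool.Agent.Helper33.KV

/-- **ISS (1 h).** Closure of the class `IsS`.
PROOF.  On the open set `(0,∞)` everything is smooth; Leibniz. (1): for `0 < x < 1` `x^{γ-k} <= x^{γ'-k}`;
for `x > 1` all derivatives vanish (locally zero) and at `x = 1` by continuity. (3) `deriv φ x = 0` for
`x < 0` and `x > 1`; at `x = 0`: if `φ` is differentiable there the derivative is the left derivative `0`,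
otherwise `deriv = 0` by convention; at `x = 1` by continuity of the derivative. -/
def S_ISS : Prop :=
  (∀ γ γ' φ, γ' ≤ γ → IsS γ φ → IsS γ' φ) ∧
  (∀ γ φ ψ, IsS γ φ → IsS γ ψ → IsS γ (fun x => φ x + ψ x)) ∧
  (∀ γ φ (c : ℝ), IsS γ φ → IsS γ (fun x => c * φ x)) ∧
  (∀ γ γ' φ ψ, IsS γ φ → IsS γ' ψ → IsS (γ + γ') (fun x => φ x * ψ x)) ∧
  (∀ γ φ, IsS γ φ → IsS (γ - 1) (deriv φ)) ∧
  (∀ γ φ, IsS γ φ → IsS (γ - 3) (iteratedDeriv 3 φ)) ∧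
  (∀ γ, IsS γ (fun _ => 0))

/-- **FZ (0.7 h).** The initial right field is in the class. Hypothesis: `S_ISS`.
PROOF.  For `x > 0` it is a finite sum of `smoothTransition (2-2x) x^{α-1/2+2αj} (log x)^b`; the `k`-th
derivative of `x^β (log x)^b` is `x^{β-k}` times a polynomial in `log x`, and `x^{α/2}|log x|^b` is bounded on
`(0,1]`; `smoothTransition (2-2x)` is smooth with all derivatives bounded on `[0,1]` and vanishes for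
`x >= 1`. -/
def S_FZ : Prop :=
  ∀ (α : ℝ) (p : ℕ → Polynomial ℝ) (J : ℕ), 0 < α → α < 1 → IsS (α/2 - 1/2) (fZero α p J)

/-- **FS (1.5 h).** The coefficients of the right field and its equation. Hypothesis: `S_ISS`.
PROOF.  (1) Induction on `n`: `(Fs n).natDegree <= n`, `(Fs n).coeff i = (Fs i).coeff i` for `i <= n`, and
with `γ_i = α/2-1/2-3i`: `f_i''' ∈ IsS (γ_i - 3) = IsS γ_{i+1}`; `(Fs i ^5).coeff i` is a finite sum of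
products `f_{i1}...f_{i5}` with `i1+...+i5 = i` (general fact: if all coefficients `c_k` of a polynomial
over `ℝ → ℝ` are in `IsS (a - 3k)` and those of another one in `IsS (b - 3k)` then the product has coefficients
in `IsS (a+b-3k)`), so it is in `IsS (5(α/2-1/2) - 3i)`, its derivative in
`IsS (5α/2 - 7/2 - 3i)` and `5α/2-7/2-3i = γ_{i+1} + 2α >= γ_{i+1}`.
(2) For `x > 0` all coefficient functions are differentiable, so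
`∂_x (F^5)(t,x) = Σ_k t^k ((Fs n^5).coeff k)'(x)`, `∂_x^3F = Σ t^k f_k'''`, `∂_tF = Σ_k (k+1) t^k f_{k+1}`. For
`k < n` the coefficient of `t^k` of the sum vanishes by the definition of `f_{k+1}`
(`(Fs n^5).coeff k = (Fs k^5).coeff k` as `Fs n ≡ Fs k` mod `X^{k+1}`). Put `r_k = [k = n] f_n''' +
((Fs n^5).coeff k)'` for `n <= k <= 5n`, `0` otherwise. -/
def S_FS : Prop :=
  ∀ (α : ℝ) (f0 : ℝ → ℝ), 0 < α → α < 1 → IsS (α/2 - 1/2) f0 → ∀ n : ℕ,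
    (∀ i : ℕ, IsS (α/2 - 1/2 - 3 * i) ((Fs f0 n).coeff i)) ∧
    ∃ r : ℕ → ℝ → ℝ, (∀ i : ℕ, IsS (α/2 - 1/2 - 3 * ((i : ℝ) + 1)) (r i)) ∧
      ∀ t x : ℝ, 0 < x →
        deriv (fun τ => FR f0 n τ x) t + iteratedDeriv 3 (FR f0 n t) x
            + deriv (fun x => FR f0 n t x ^ 5) x
          = ∑ i ∈ Finset.Icc n (5 * n), t ^ i * r i x

/-- **EXPL (1.3 h).** Explicit form of the right field for `x < 1/2`. No hypotheses.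
PROOF.  Key formula: for `x > 0`, `g ∈ XL`, `d/dx [x^β eval![x^{2α}, log x] g] = x^{β-1} eval![..] (bd α β g)`
(check `g = X 0`, `X 1`, constants; both sides are compatible with sums and products: write
`D_x g := x d/dx (eval g) = eval (delt g)`, a derivation; use `MvPolynomial.induction_on`).
Induction on `n` for all `x ∈ (0,1/2)`. `n = 0`: `smoothTransition (2-2x) = 1` for `x <= 1/2`. Step: fix
`n`; on `(0,1/2)` the coefficient functions `i <= n` have the explicit form. For a fixed `x` evaluate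
the coefficients: `Fs_x(T) = x^{α-1/2} Phi_x(T/x^3)` as polynomials in `T`, so
`(Fs n^5).coeff n (x) = x^{5(α-1/2)-3n} eval ((Phi n^5).coeff n)`; apply the key formula three times to
`f_n` (`β = α-1/2-3n`) and once to this (`β = 5(α-1/2)-3n`), and use
`x^{5(α-1/2)-3n-1} = x^{α-1/2-3(n+1)} (x^{2α})^2`. The derivatives at `x ∈ (0,1/2)` only see the values near
`x` (open set). -/
def S_EXPL : Prop :=
  ∀ (α : ℝ) (p : ℕ → Polynomial ℝ) (J n i : ℕ) (x : ℝ), 0 < α → α < 1 → 0 < x → x < 1/2 →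
    (Fs (fZero α p J) n).coeff i x
      = x ^ (α - 1/2 - 3 * (i : ℝ)) *
        MvPolynomial.eval ![x ^ (2 * α), Real.log x] ((Phi α (gZero p J) n).coeff i)

/-- **CURV (0.8 h).** Calculus of the reference curve. No hypotheses.
PROOF.  `σ^{4α+3} = (4α+3)t`, real powers; `σ' = ((4α+3)t)^{1/(4α+3)-1} = σ^{-(4α+2)} = λ^{-2}`;
`λ' = (2α+1)σ^{2α}σ'`, `ρ' = 2ασ^{2α-1}σ'`, `λ = σρ`, `(log σ)' = σ'/σ`. -/
def S_CURV : Prop :=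
  ∀ α : ℝ, 0 < α → α < 1 →
    (∀ t, 0 < t → 0 < sig α t ∧ 0 < lam α t ∧ 0 < rho α t ∧ lam α t = sig α t * rho α t ∧
      sig α t ^ (4 * α + 3) = (4 * α + 3) * t ∧
      lam α t ^ 2 * sig α t = (4 * α + 3) * t ∧
      HasDerivAt (sig α) (1 / lam α t ^ 2) t ∧
      HasDerivAt (lam α) ((2 * α + 1) * rho α t / lam α t ^ 2) t ∧
      HasDerivAt (rho α) (2 * α * rho α t ^ 2 / lam α t ^ 3) t ∧
      HasDerivAt (fun τ => Real.log (sig α τ)) (rho α t / lam α t ^ 3) t) ∧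
    ContDiffOn ℝ (⊤ : ℕ∞) (sig α) (Set.Ioi 0) ∧ ContDiffOn ℝ (⊤ : ℕ∞) (lam α) (Set.Ioi 0) ∧
    ContDiffOn ℝ (⊤ : ℕ∞) (rho α) (Set.Ioi 0) ∧
    (∀ ε : ℝ, 0 < ε → ∃ T : ℝ, 0 < T ∧ ∀ t, 0 < t → t ≤ T →
      sig α t < ε ∧ lam α t < ε ∧ rho α t < ε) ∧
    (∀ (δ : ℝ) (n : ℕ), 0 < δ → ∃ C : ℝ, ∀ t, 0 < t → sig α t ≤ 1 →
      (1 + |Real.log (sig α t)|) ^ n ≤ C * rho α t ^ (-δ))

/-- **INNR (1 h).** The right field near the soliton in inner variables. Hypotheses: `S_EXPL`, `S_CURV`,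
`S_PHI`.
PROOF.  `x = σ + λy = σ(1+z)`, `z = ρy`, `|z| <= 1/2`, `0 < x < 1/2` as `σ < 1/3`. By EXPL
`F = Σ_i t^i x^{α-1/2-3i} ev_i`, and `√λ x^{α-1/2} = σ^{2α}(1+z)^{α-1/2} = ρ h0(z)`
(`√λ σ^{α-1/2} = σ^{α+1/2+α-1/2}`), `t x^{-3} = (σ^{4α+3}/(4α+3)) σ^{-3}(1+z)^{-3} = ρ^2 h1(z)/(4α+3)`,
`x^{2α} = ρ h2(z)`, `log x = ℓ + h3(z)`; `Polynomial.eval` of `(Phi n).map ev` is `Σ_{i ≤ n}` since
`natDegree <= n`. -/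
def S_INNR : Prop :=
  ∀ (α : ℝ) (h0 h1 h2 h3 : ℝ → ℝ) (p : ℕ → Polynomial ℝ) (J n : ℕ), 0 < α → α < 1 →
    IsAux α h0 h1 h2 h3 → ∀ t y : ℝ, 0 < t → sig α t < 1/3 → |rho α t * y| ≤ 1/2 →
      Real.sqrt (lam α t) * FR (fZero α p J) n t (sig α t + lam α t * y)
        = Fh α h0 h1 h2 h3 n (gZero p J) (rho α t) (Real.log (sig α t)) y

/-- **TD (0.8 h).** Derivatives and bounds along the curve. Hypotheses: `S_CURV`, `S_MCL1`, `S_MCL2`.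
PROOF.  Chain rule for the smooth function `(r,l) ↦ Φ r l y` (MCL1, joint smoothness):
`(ρ' ∂_r + (log σ)' ∂_l) Φ = (2αρ^2/λ^3) Φ_r + (ρ/λ^3) Φ_l = (ρ/λ^3) DopΦ`. Second part: `iteratedDeriv k` in
`y` is `dY^[k]`. Third part: MCL2 (bounds with `(1+|l|)^n`) and the last clause of CURV. -/
def S_TD : Prop :=
  ∀ α : ℝ, 0 < α → α < 1 →
    (∀ Φ : F3, (Φ ∈ MT 0 ∨ Φ ∈ MP 0) → ∀ t y : ℝ, 0 < t →
      HasDerivAt (fun τ => Φ (rho α τ) (Real.log (sig α τ)) y)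
        (rho α t / lam α t ^ 3 * Dop α Φ (rho α t) (Real.log (sig α t)) y) t) ∧
    (∀ Φ : F3, (Φ ∈ MT 0 ∨ Φ ∈ MP 0) → ∀ (k : ℕ) (r l y : ℝ),
      iteratedDeriv k (Φ r l) y = (dY^[k] Φ) r l y) ∧
    (∀ (m : ℕ) (Φ : F3) (δ : ℝ), 0 < δ → Φ ∈ MT m → ∃ (C : ℝ) (n1 : ℕ), ∀ t y : ℝ, 0 < t →
      sig α t ≤ 1 →
      (0 ≤ y → |Φ (rho α t) (Real.log (sig α t)) y|
        ≤ C * rho α t ^ ((m : ℝ) - δ) * Real.exp (-(y / 2))) ∧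
      (y ≤ 0 → |Φ (rho α t) (Real.log (sig α t)) y|
        ≤ C * rho α t ^ ((m : ℝ) - δ) * (1 + |y|) ^ n1)) ∧
    (∀ (m : ℕ) (Φ : F3) (δ : ℝ), 0 < δ → Φ ∈ MP m → ∃ (C : ℝ) (n1 : ℕ), ∀ t y : ℝ, 0 < t →
      sig α t ≤ 1 →
      |Φ (rho α t) (Real.log (sig α t)) y| ≤ C * rho α t ^ ((m : ℝ) - δ) * (1 + |y|) ^ n1)

/-- **VREP (1 h).** Two representations of `vin`. Hypotheses: `S_INNR`, `S_CURV`.
PROOF.  Take `T` so small that for `t <= T`: `σ < 1/4`, `2ρ^{1-θ} <= 1/2`, `ρ^{1/2-θ} <= 1`.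
(a) `y` with `ρy <= 1/2`. If `ρ^θ y <= -2` then `chL (ρ^θ y) = 0` and the formula is the definition. Otherwise
`|ρy| <= 1/2` (`|y| <= 2ρ^{-θ}` if `y < 0`), `x = σ(1+ρy) ∈ (0, 1/2]`, so `chO x = 1` and INNR applies
(`σ < 1/3`): collect terms.
(b) `ρ^θ y >= -1`: `chL (ρ^θ y) = 1` and `ρ^{1/2} y = ρ^{1/2-θ} ρ^θ y >= -1` (if `y < 0`), so
`chL (ρ^{1/2}y) = 1`. -/
def S_VREP : Prop :=
  ∀ (α : ℝ) (J n : ℕ) (R P h0 h1 h2 h3 : ℝ → ℝ) (p : ℕ → Polynomial ℝ) (c1 a0 : ℝ)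
    (ω2 ω3 : ℝ → ℝ) (e3 : Polynomial ℝ) (w : F3),
    Dat α J n R P h0 h1 h2 h3 p c1 a0 ω2 ω3 e3 w →
    ∀ θ : ℝ, 0 < θ → θ < 1/2 → ∃ T : ℝ, 0 < T ∧ ∀ t, 0 < t → t ≤ T →
      sig α t < 1/4 ∧ 2 * rho α t ^ (1 - θ) ≤ 1/2 ∧
      (∀ y, rho α t * y ≤ 1/2 → vin α θ R P w (fZero α p J) n t y
        = chO (sig α t + lam α t * y) * Q y
          + chL (rho α t ^ ((1 : ℝ) / 2) * y) * (rho α t * (kOne α + wOne α R P y))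
          + chL (rho α t ^ θ * y)
            * Gg α h0 h1 h2 h3 n J p R P w (rho α t) (Real.log (sig α t)) y) ∧
      (∀ y, -1 ≤ rho α t ^ θ * y → vin α θ R P w (fZero α p J) n t y
        = chO (sig α t + lam α t * y) * (Q y + w (rho α t) (Real.log (sig α t)) y)
          + Real.sqrt (lam α t) * FR (fZero α p J) n t (sig α t + lam α t * y))

/-- **SMW (1.2 h).** Smoothness and support of `W = outr α vin`. Hypotheses: `S_FZ`, `S_FS`, `S_CURV`,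
`S_MCL1`, `S_VREP`.
PROOF.  Take `T1` as in VREP. `(t,x) ↦ y = (x-σ)/λ` is smooth for `t > 0`. All factors are smooth in `(t,x)`
(`w` by MCL1 joint smoothness, real powers of the positive `ρ`) except `FR` at `x <= 0`; but
`chL (ρ^θ y) = 0` for `x <= σ - 2λρ^{-θ} = σ(1 - 2ρ^{1-θ})`, in particular for `x <= σ/2`, so the product
`chL(..) FR` is smooth on `{x < σ/2}` (zero) and on `{x > 0}` (both factors smooth; `f_i` smooth on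
`(0,∞)` by FS(1)); these open sets cover. Support: `chO = 0` for `|x| >= 1`; `FR = 0` for `x >= 1`; the last
term of `vin` vanishes unless `-2ρ^{-1/2} <= y <= -ρ^{-θ}`, i.e. only for `x ∈ [σ(1-2ρ^{1/2}), σ] ⊂ (0,1)`
(`θ < 1/2`; where both cut-offs are `1` or both `0` it vanishes; take `T1` with `2ρ^{1/2} <= 1/2`). -/
def S_SMW : Prop :=
  ∀ (α : ℝ) (J n : ℕ) (R P h0 h1 h2 h3 : ℝ → ℝ) (p : ℕ → Polynomial ℝ) (c1 a0 : ℝ)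
    (ω2 ω3 : ℝ → ℝ) (e3 : Polynomial ℝ) (w : F3),
    Dat α J n R P h0 h1 h2 h3 p c1 a0 ω2 ω3 e3 w →
    ∀ θ : ℝ, 0 < θ → θ < 1/2 → ∃ T1 : ℝ, 0 < T1 ∧
      ContDiffOn ℝ (⊤ : ℕ∞) (fun q : ℝ × ℝ => outr α (vin α θ R P w (fZero α p J) n) q.1 q.2)
        (Set.Ioo 0 T1 ×ˢ Set.univ) ∧
      ContDiffOn ℝ (⊤ : ℕ∞) (fun q : ℝ × ℝ => vin α θ R P w (fZero α p J) n q.1 q.2)
        (Set.Ioo 0 T1 ×ˢ Set.univ) ∧
      (∀ t ∈ Set.Ioo 0 T1, ∀ x, x ∉ Set.Icc (-1 : ℝ) 1 →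
        outr α (vin α θ R P w (fZero α p J) n) t x = 0)

/-- **HC (1 h).** General: smooth functions with support in `[-1,1]` are in the class. No hypotheses.
PROOF.  On the open set `(0,T1) × ℝ` all partial derivatives exist, are continuous and commute:
`∂_t ∂_x^k W = ∂_x^k ∂_t W` (`ContDiffOn` on an open set; write `∂_x^k W` as an iterated directional
derivative). For `k`-th `x`-derivatives: zero for `|x| > 1`, continuous on the compact set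
`[t1,t2] × [-1,1]`, hence bounded by some `B`; `MemLp` 2 and `∫ <= 2B^2`. -/
def S_HC : Prop :=
  ∀ (W : ℝ → ℝ → ℝ) (T1 : ℝ), 0 < T1 →
    ContDiffOn ℝ (⊤ : ℕ∞) (fun q : ℝ × ℝ => W q.1 q.2) (Set.Ioo 0 T1 ×ˢ Set.univ) →
    (∀ t ∈ Set.Ioo 0 T1, ∀ x, x ∉ Set.Icc (-1 : ℝ) 1 → W t x = 0) →
    ∀ t1 t2, 0 < t1 → t1 ≤ t2 → t2 < T1 →
      HInf W t1 t2 ∧ HInf (fun t x => deriv (fun τ => W τ x) t) t1 t2 ∧
      HasTimeDeriv W (fun t x => deriv (fun τ => W τ x) t) t1 t2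

/-- **CHN (1 h).** The residual in inner variables. Hypothesis: `S_CURV`.
PROOF.  `W = outr α v`, `inn α W = v` (`λ > 0`). `v(t,y) = √λ W(t, σ+λy)`, so
`λ^3 ∂_t v = λ^3 [ (λ'/(2λ)) v + √λ W_t + √λ W_x (σ' + λ' y) ] = (2α+1)ρ (v/2 + y v_y) + v_y + λ^{7/2} W_t`
(`v_y = λ^{3/2} W_x`, `λ^2 λ' = (2α+1)ρ`, `λ^3 σ'/λ = 1`), hence `λ^3 inn(W_t) = ∂_s v - v_y - (2α+1)ρΛv`;
`λ^3 inn((flux W)_x) = (v_yy + v^5)_y` by scaling. Sum `= resE`. -/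
def S_CHN : Prop :=
  ∀ (α : ℝ) (v : ℝ → ℝ → ℝ) (T1 : ℝ), 0 < α → α < 1 → 0 < T1 →
    ContDiffOn ℝ (⊤ : ℕ∞) (fun q : ℝ × ℝ => v q.1 q.2) (Set.Ioo 0 T1 ×ˢ Set.univ) →
    ∀ t ∈ Set.Ioo 0 T1, ∀ y : ℝ,
      inn α (outr α v) t y = v t y ∧
      resid α (outr α v) (fun t x => deriv (fun τ => outr α v τ x) t) t y = resE α v t y ∧
      lam α t ^ 3 * inn α (fun t x => deriv (fun τ => outr α v τ x) t) t y
        = lam α t ^ 3 * deriv (fun τ => v τ y) t - deriv (v t) y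
          - (2 * α + 1) * rho α t * Lam (v t) y

/-- **FHB (1 h).** Bounds of the right field in inner variables for `y ≥ -ρ^{-θ}` (i.e. `x ≥ σ/2`).
Hypotheses: `S_FZ`, `S_FS`, `S_CURV`.
PROOF.  By FS(1) `|∂_x^k F| <= Σ_i t^i C x^{α/2-1/2-3i-k} <= C x^{α/2-1/2-k}` for `x >= σ/2`, since
`t = σ^{4α+3}/(4α+3) <= σ^3 <= 8x^3` (`σ <= 1`). `∂_y^k F̂ = λ^{1/2+k} (∂_x^kF)(x)`, so
`|∂_y^kF̂| <= C λ^{1/2+k} σ^{α/2-1/2-k} = C ρ^{k+1/2} σ^{α/2} = C ρ^{k+3/4}` (`α/2 - 1/2 - k < 0`;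
`λ^{1/2+k} σ^{-1/2-k} = ρ^{1/2+k}`, `σ^{α/2} = ρ^{1/4}`). `|y| <= 2x/λ` (`|y| λ = |x-σ| <= x` for `x >= σ/2`), so
`|y||∂_yF̂| <= C λ^{1/2} x^{α/2-1/2} <= Cρ^{3/4}`. Time derivative at fixed `y`:
`∂_sF̂ = (2α+1)ρ(F̂/2 + yF̂_y) + F̂_y + λ^{7/2}F_t`, `|F_t| <= C x^{α/2-7/2}`, `λ^{7/2}σ^{α/2-7/2} = ρ^{15/4}`;
the same for the `y`-derivatives. (x-derivatives of all orders of `F_t = Σ (i+1)t^i f_{i+1}` as before.) -/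
def S_FHB : Prop :=
  ∀ (α : ℝ) (f0 : ℝ → ℝ) (n : ℕ), 0 < α → α < 1 → IsS (α/2 - 1/2) f0 →
    ∃ C : ℝ, ∀ t y : ℝ, 0 < t → sig α t ≤ 1 → sig α t / 2 ≤ sig α t + lam α t * y →
      (∀ k ≤ 5, |iteratedDeriv k (fun y' => Real.sqrt (lam α t) *
          FR f0 n t (sig α t + lam α t * y')) y| ≤ C * rho α t ^ ((k : ℝ) + 3/4)) ∧
      |y| * |deriv (fun y' => Real.sqrt (lam α t) * FR f0 n t (sig α t + lam α t * y')) y|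
        ≤ C * rho α t ^ ((3 : ℝ) / 4) ∧
      lam α t ^ 3 * |deriv (fun τ => Real.sqrt (lam α τ) *
          FR f0 n τ (sig α τ + lam α τ * y)) t| ≤ C * rho α t ^ ((7 : ℝ) / 4) ∧
      lam α t ^ 3 * |deriv (fun y' => deriv (fun τ => Real.sqrt (lam α τ) *
          FR f0 n τ (sig α τ + lam α τ * y')) t) y| ≤ C * rho α t ^ ((7 : ℝ) / 4)

/-- **UB (2 h).** Pointwise bounds of `v - Q`. Hypotheses: `S_VREP`, `S_TD`, `S_FHB`, `S_CURV`, `S_MCL1`,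
`S_MCL2`, `S_QF`, `S_ECL1`, `S_PAIR` (first clause: `IsT w_1`), `S_SMW`.
PROOF.  Write `ζ = k_1 + w_1` (bounded, `ζ^{(k)} = O(e^{-3|y|/4})` for `k >= 1`: its tail polynomial is
constant), `G = Gg`; `Dat` gives `G ∈ MT 2 + MP 2` (with coefficients of order 2, 3 subtracted even order 4).
By TD with `δ = 1/16`: `|∂_y^kG|, |∂_y^k Dop G| <= C ρ^{2-1/16} (1+|y|)^{n1}` (`k <= 5`) for `ρy <= 1/2`... (all `y`),
and `|∂_y^k w|, |∂_y^kDop w| <= Cρ^{7/8} e^{-y/2}` for `y >= 0`. Choose `θ0 = 1/(32(n1+8))`, so that on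
`-2ρ^{-θ} <= y <= 0`: `(1+|y|)^{n1+2} <= C ρ^{-1/16}`, `|∂^kG|(1+|y|)^2 <= C ρ^{15/8}`.
PIECE 0: `(chO(x)-1)Q`. As `σ < 1/4`, `chO(x) ≠ 1` forces `|λy| >= 1/4`, `|y| >= 1/(4λ)`; derivatives
`∂_y chO = λ chO'`, `∂_s chO(x) = λ (1 + (2α+1)ρ y) chO'(x)` (since `λ^3(σ' + λ'y) = λ + (2α+1)ρλ y`), so all
derivatives needed are `<= C(1+|y|)e^{-|y|} <= C e^{-3|y|/4} e^{-1/(32λ)} <= C ρ^2 e^{-3|y|/4}` (`λ <= ρ`
and `e^{-1/(32λ)} <= C λ^2`).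
LEFT `y <= 0` (VREP (a)): PIECE 1 `chL(ρ^{1/2}y) ρ ζ`: `k`-th derivative: `ρ ζ^{(k)}`-terms
`<= Cρ e^{-3|y|/4}` plus `ρ ρ^{k/2}` (derivative on the cut-off), `|y| <= 2ρ^{-1/2}` on the support of
`chL'`; `∂_s`: `2αρ^2 chL ζ + αρ^2 (ρ^{1/2}y) chL' ζ = O(ρ^2)`; `|y| |∂^k| <= C ρ`.
PIECE 2 `chL(ρ^θ y) G`: `<= C ρ^{15/8}` with all derivatives, also times `|y|`; `∂_s`:
`2αθ ρ (ρ^θ y) chL' G + ρ chL Dop G = O(ρ^{1+15/8})`. So neg0, negk, negy, negt.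
For `y <= -2ρ^{-1/2}` both cut-offs vanish near `y` (or use continuity at the end point): `v = chO Q`.
RIGHT `y >= 0` (VREP (b)): `v - Q - F̂ = (chO-1)Q + chO w`: `∂_s (chO w) = (∂_s chO) w + chO ρ Dop w`,
`|∂_s chO| <= Cλ(1+ρ|y|)` with support in `|y| >= 1/(4λ)`; all `<= C ρ^{7/8} e^{-y/2}`, time derivatives
`<= C ρ^{15/8} e^{-y/2} + ...` (use the rate `3/4` of `w`: `IsT` gives every rate `< 1`; a version of MCL2 with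
rate `3/4` instead of `1/2` is proved in the same way, it absorbs the factor `1+|y|`). -/
def S_UB : Prop :=
  ∀ (α : ℝ) (J n : ℕ) (R P h0 h1 h2 h3 : ℝ → ℝ) (p : ℕ → Polynomial ℝ) (c1 a0 : ℝ)
    (ω2 ω3 : ℝ → ℝ) (e3 : Polynomial ℝ) (w : F3),
    Dat α J n R P h0 h1 h2 h3 p c1 a0 ω2 ω3 e3 w →
    ∃ θ0 : ℝ, 0 < θ0 ∧ θ0 < 1/4 ∧ ∀ θ : ℝ, 0 < θ → θ ≤ θ0 → ∃ T C : ℝ, 0 < T ∧
      UBd α T C (vin α θ R P w (fZero α p J) n) (Fhat α (fZero α p J) n)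

/-- **BF (1.2 h).** The fields `b0, b1, b1', b2, bt` of `Bg`, `b0L, tailL, lft` of `BgX`, `d0, d1, d2, dt` of
`BgY`. Hypotheses: `S_FHB`, `S_CURV`, `S_QF`. `Cu` is absolute (it only depends on `Q`), `C` may depend on everything.
PROOF.  From `UBd` and FHB (applies for `y >= 0`): for all `y`, with `u = v - Q`:
`|u| <= C ρ^{3/4}`, `|u_y|, |u_yy| <= C(ρ^{7/8}e^{-|y|/2} + ρ^{3/2})`, `(1+|y|)|u_y| <= C ρ^{3/4}`,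
`λ^3|∂_t v| <= C ρ^{7/4}` (`∂_t Q = 0`). Then everything follows from `|Q^{(k)}| <= C_Qe^{-|y|}`,
`(1+|y|) e^{-|y|} <= 2 e^{-|y|/2}`, and the extra power of `ρ` absorbs `C` for `t <= T` small
(`Cρ^{3/4} <= ρ^{1/2}`, `Cρ^{3/2} <= ρ^{5/4}`, `Cρ^{7/4} <= ρ^{5/4}`), so `Cu = 4 C_Q + 4`.
`derivWithin (Ioc 0 T') t = deriv t` (also at `t = T'`, because the two-sided derivative exists, `T0 < T1`).
`lft`: `(1 - wt)^2 <= min(1, ρ^2 e^{-2y/K})`, `K >= 64`. `y >= 0`: `v, v_y, v_yy` bounded, `∫ ρ^2e^{-2y/K} = Kρ^2/2`.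
`y <= 0`: `v^2 <= 2Q^2 + 2u^2`; `∫ρ^2e^{2|y|/K}(Q^2+Q'^2+Q''^2) <= Cρ^2`; `u`: on `-2ρ^{-1/2} <= y <= 0`
`∫ u^2 + u_y^2+u_yy^2 <= C ρ^2 * 2ρ^{-1/2} = Cρ^{3/2}`; for `y <= -2ρ^{-1/2}` `|v^{(k)}| <= Ce^{-3|y|/4}`. -/
def S_BF : Prop :=
  ∃ Cu : ℝ, ∀ (α K T0 C0 T1 : ℝ) (v : ℝ → ℝ → ℝ) (f0 : ℝ → ℝ) (n : ℕ), 0 < α → α < 1 → 64 ≤ K →
    IsS (α/2 - 1/2) f0 → 0 < T0 → T0 < T1 →
    ContDiffOn ℝ (⊤ : ℕ∞) (fun q : ℝ × ℝ => v q.1 q.2) (Set.Ioo 0 T1 ×ˢ Set.univ) →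
    UBd α T0 C0 v (Fhat α f0 n) →
    ∃ T C : ℝ, 0 < T ∧ T ≤ T0 ∧ ∀ t ∈ Set.Ioc 0 T, ∀ T' : ℝ, t ≤ T' → T' ≤ T →
      (∀ y, |v t y| ≤ Cu * (Real.exp (-|y| / 2) + rho α t ^ ((1 : ℝ) / 2)) ∧
        (1 + |y|) * |deriv (v t) y| ≤ Cu * (Real.exp (-|y| / 2) + rho α t ^ ((1 : ℝ) / 2)) ∧
        |deriv (v t) y| ≤ Cu * (Real.exp (-|y| / 2) + rho α t ^ ((5 : ℝ) / 4)) ∧
        |iteratedDeriv 2 (v t) y| ≤ Cu * (Real.exp (-|y| / 2) + rho α t ^ ((5 : ℝ) / 4)) ∧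
        (y ≤ 0 → |v t y - Q y| ≤ C * rho α t) ∧
        (y ≤ -1 / (2 * rho α t) → ∀ k ≤ 4,
          |iteratedDeriv k (v t) y| ≤ C * Real.exp (-|y| / 2)) ∧
        |v t y - Q y| ≤ rho α t ^ ((1 : ℝ) / 2) ∧
        (1 + |y|) * |deriv (fun y' => v t y' - Q y') y| ≤ rho α t ^ ((1 : ℝ) / 2) ∧
        |iteratedDeriv 2 (fun y' => v t y' - Q y') y| ≤ rho α t ^ ((1 : ℝ) / 2) ∧
        lam α t ^ 3 * |derivWithin (fun τ => v τ y) (Set.Ioc 0 T') t|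
          ≤ rho α t ^ ((5 : ℝ) / 4)) ∧
      Integrable (fun y => (1 - wt K (rho α t) y) ^ 2 * (v t y ^ 2
        + deriv (v t) y ^ 2 + iteratedDeriv 2 (v t) y ^ 2)) ∧
      (∫ y, (1 - wt K (rho α t) y) ^ 2 * (v t y ^ 2
        + deriv (v t) y ^ 2 + iteratedDeriv 2 (v t) y ^ 2)) ≤ C * rho α t ^ ((3 : ℝ) / 2)

/-- **RB (2 h).** Third order remainder `r = (v - Q - ρκZ - ρ^2V_2)/ρ^3` (with an exponential weight and a constant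
`Cu` that only depends on `ω_3, e_3`), and `dexp`. Hypotheses: `S_VREP`, `S_TD`, `S_FZ`, `S_FHB`, `S_CURV`, `S_MCL1`,
`S_MCL2`, `S_QF`, `S_ECL1`, `S_PAIR`, `S_SMW`, `S_ZV` (`κ = k_1`).
PROOF.  `ρκZ = ρζ`, `ζ = k_1 + w_1`. (A) `-ρ^{-θ} <= y <= 1/(2ρ)`: `v - Q - ρζ - ρ^2V_2 = G - ρ^2V_2` (VREP (a); both
cut-offs are `1`, `chO = 1`), and by `Dat` `G - lif 2 V_2 - lif 3 (ω_3 + e_3) ∈ MT 4 + MP 4`
(`V_2 = k_1(α-1/2)y + c_1 + ω_2`). So `r = ω_3 + e_3 + ρ^{-3}(MT 4 + MP 4)` and by TD (`δ = 1/2`)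
`|∂_y^k (r - ω_3 - e_3)| <= C ρ^{1/2}(1+|y|)^{n1} <= e^{|y|/64}` for `T` small; `|∂_y^k(ω_3 + e_3)| <= C(ω_3,e_3)
e^{|y|/64}`. `∂_s r`: `∂_t(ω_3+e_3) = 0`, `∂_s[ρ^{-3}Φ] = ρ[ρ^{-3}DopΦ - 6αρ^{-3}Φ]`, absolute value
`<= ρ C ρ^{1/2} (1+|y|)^{n1} <= ρ e^{|y|/64}`.
(B) otherwise `|y| >= ρ^{-θ}` (for `y >= 1/(2ρ)` as well, `θ < 1`, `T` small): all of
`v^{(k)}` (`k <= 4`; UBd and FHB), `ζ^{(k)}` are bounded by `C`, `V_2^{(k)} = O(1+|y|)`, hence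
`|r^{(k)}| <= Cρ^{-3}(1+|y|) <= e^{|y|/64}` for `T` small, as `|y| >= ρ^{-θ}`;
`λ^3∂_t r = ρ^{-3}[∂_sv - 2αρ^2ζ - 4αρ^3V_2] - 6αρ r` is `<= ρ e^{|y|/64}` too (`|∂_sv| <= Cρ^{7/4}`). The end
points are covered by smoothness (derivatives are continuous).
`dexp`: (A): `|v - Q| <= ρκM + |G|`, `|G| <= Cρ^{15/8}(1+|y|)^{n1}` and `Cρ^{7/8}(1+|y|)^{n1}e^{-|y|/8} <= 1` for
`T` small. (B) `y <= -ρ^{-θ}`: `|v-Q| <= Cρ <= ρ e^{|y|/8}`; `y >= 1/(2ρ)`: `|v-Q| <= Cρ^{3/4} <= ρe^{1/(16ρ)}`. -/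
def S_RB : Prop :=
  ∀ (α : ℝ) (ω3 : ℝ → ℝ) (e3 : Polynomial ℝ), IsT ω3 → ∃ Cu : ℝ,
    ∀ (J n : ℕ) (R P h0 h1 h2 h3 : ℝ → ℝ) (p : ℕ → Polynomial ℝ) (c1 a0 : ℝ)
      (ω2 : ℝ → ℝ) (w : F3) (M : ℝ),
    Dat α J n R P h0 h1 h2 h3 p c1 a0 ω2 ω3 e3 w → (∀ y, |Zp α R P y| ≤ M) →
    ∀ θ : ℝ, 0 < θ → θ < 1/4 → ∀ T0 C0 : ℝ, 0 < T0 →
      UBd α T0 C0 (vin α θ R P w (fZero α p J) n) (Fhat α (fZero α p J) n) →
    ∃ T : ℝ, 0 < T ∧ T ≤ T0 ∧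
      ∀ t ∈ Set.Ioc 0 T,
        ContDiff ℝ (⊤ : ℕ∞) (fun y => (vin α θ R P w (fZero α p J) n t y - Q y
          - rho α t * kap α * Zp α R P y - rho α t ^ 2 * V2p α c1 ω2 y) / rho α t ^ 3) ∧
        (∀ k ≤ 4, ∀ y, |iteratedDeriv k (fun y => (vin α θ R P w (fZero α p J) n t y - Q y
          - rho α t * kap α * Zp α R P y - rho α t ^ 2 * V2p α c1 ω2 y) / rho α t ^ 3) y|
            ≤ Cu * Real.exp (|y| / 64)) ∧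
        (∀ y, DifferentiableAt ℝ (fun τ => (vin α θ R P w (fZero α p J) n τ y - Q y
          - rho α τ * kap α * Zp α R P y - rho α τ ^ 2 * V2p α c1 ω2 y) / rho α τ ^ 3) t ∧
          |deriv (fun τ => (vin α θ R P w (fZero α p J) n τ y - Q y
          - rho α τ * kap α * Zp α R P y - rho α τ ^ 2 * V2p α c1 ω2 y) / rho α τ ^ 3) t|
            ≤ Cu * (rho α t / lam α t ^ 3) * Real.exp (|y| / 64)) ∧
        (∀ y, |vin α θ R P w (fZero α p J) n t y - Q y|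
          ≤ (1 + kap α * M) * rho α t * Real.exp (|y| / 8))

/-- **RESP (2 h).** Pointwise bounds of the residual (`n1` does not depend on `θ`). Hypotheses: `S_VREP`, `S_TD`,
`S_FZ`, `S_FS`, `S_FHB`, `S_CURV`, `S_INNR`, `S_CHN`, `S_MCL1`, `S_MCL2`, `S_QF`, `S_ECL1`, `S_PAIR`, `S_SMW`.
PROOF.  `E = resE v`, `E_F = resF`.
(i) `y >= -ρ^{-θ}` and `ρy <= 1/2` (then `x < 1/2`, `chO = 1`): `v = Q + w + F̂`, `F̂ = Fh(ρ,ℓ,·)` near `y`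
(INNR), `Q'' - Q + Q^5 = 0`, so `E = Bk α Fh w (ρ,ℓ,y) + E_F` where
`E_F = ∂_sF̂ + (F̂_yy - F̂ + F̂^5)_y - (2α+1)ρΛF̂ = λ^{7/2}(F_t + F_xxx + (F^5)_x)(t,x)` (computation of CHN). By `Dat.br`
and TD (`δ = 1/2`): `|∂^k(E - E_F)| <= Cρ^{J+1/2}((1+|y|)^{n1} or e^{-y/2})`, `k = 0,1` (`n1` from TD for
`Bk` and `∂_yBk`).
(i') `ρy >= 1/2`: `v = a + F̂`, `a = chO(Q+w)`:
`E - E_F = ∂_sa + (a_yy - a + (a+F̂)^5 - F̂^5)_y - (2α+1)ρΛa`, every term has a factor `a` or a derivative of `a`,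
each `<= Ce^{-y/2}(1+y)`, the other factors are bounded; `e^{-y/2}(1+y) <= C e^{-y/4}e^{-1/(16ρ)} <= Cρ^J e^{-y/4}`.
`|∂^kE_F| <= Cλ^{7/2}ρ^{2n}x^{α/2-7/2}`: by FS(2) `E_F = λ^{7/2}Σ_{i=n}^{5n}t^ir_i(x)`, `|r_i^{(k)}| <= Cx^{α/2-7/2-3i-k}`,
`t <= σ^{4α+3}`, `x >= σ/2`: `(t/x^3)^i <= (8σ^{4α})^i <= C ρ^{2n}` (`i >= n`), `(λ/x)^k <= 2^k`.
(ii) `y <= -ρ^{-θ}`: with `u = v - Q`: `E = ∂_su + (u_yy - u + v^5 - Q^5)_y - (2α+1)ρΛv`; by `UBd` (negt, negk):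
`|∂_su| <= Cρ^{7/4}`, `|u_yyy|, |u_y| <= C(ρe^{-|y|/2}+ρ^{3/2}) <= Cρ^{3/2}`, `(v^5-Q^5)_y` is a sum of terms with a factor
`Q, Q'` (exponentially small for `|y| >= ρ^{-θ}`) or `u^4u_y`; `ρΛv = ρ(v/2 + yv_y) = O(ρ^2)` (`|u| <= Cρ`,
`|y||u_y| <= Cρ`). The same for the `y`-derivative (`k = 1`) with negk for `k <= 4`, negy for `k = 2`. So `<= Cρ^{3/2}`.
(iii) `y <= -2ρ^{-1/2}`: all terms `<= C(1+|y|)e^{-3|y|/4} <= Ce^{-|y|/2}` by `UBd.tail`. -/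
def S_RESP : Prop :=
  ∀ (α : ℝ) (J n : ℕ) (R P h0 h1 h2 h3 : ℝ → ℝ) (p : ℕ → Polynomial ℝ) (c1 a0 : ℝ)
    (ω2 ω3 : ℝ → ℝ) (e3 : Polynomial ℝ) (w : F3),
    Dat α J n R P h0 h1 h2 h3 p c1 a0 ω2 ω3 e3 w →
    ∃ n1 : ℕ, ∀ θ : ℝ, 0 < θ → θ < 1/4 → ∀ T0 C0 : ℝ, 0 < T0 →
      UBd α T0 C0 (vin α θ R P w (fZero α p J) n) (Fhat α (fZero α p J) n) →
      ∃ (T C : ℝ), 0 < T ∧ T ≤ T0 ∧
      ∀ t ∈ Set.Ioc 0 T, ∀ y : ℝ, ∀ k ≤ 1,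
        (-1 ≤ rho α t ^ θ * y → y ≤ 0 →
          |iteratedDeriv k (resE α (vin α θ R P w (fZero α p J) n) t) y|
            ≤ C * rho α t ^ J * (1 + |y|) ^ n1
              + C * lam α t ^ ((7 : ℝ)/2) * rho α t ^ (2 * n)
                * (sig α t + lam α t * y) ^ (α/2 - 7/2)) ∧
        (0 ≤ y → |iteratedDeriv k (resE α (vin α θ R P w (fZero α p J) n) t) y|
            ≤ C * rho α t ^ J * Real.exp (-y / 4)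
              + C * lam α t ^ ((7 : ℝ)/2) * rho α t ^ (2 * n)
                * (sig α t + lam α t * y) ^ (α/2 - 7/2)) ∧
        (rho α t ^ θ * y ≤ -1 →
          |iteratedDeriv k (resE α (vin α θ R P w (fZero α p J) n) t) y|
            ≤ C * rho α t ^ ((3 : ℝ) / 2)) ∧
        (y ≤ -(2 * rho α t ^ (-((1 : ℝ) / 2))) →
          |iteratedDeriv k (resE α (vin α θ R P w (fZero α p J) n) t) y|
            ≤ C * Real.exp (-|y| / 2))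

/-- **RESI (1.5 h).** Integral bounds of the residual, from the pointwise ones. Hypotheses: `S_CURV`.
PROOF.  Abstract: `E(y)` smooth with the four bounds (`k = 0, 1`), `θ n1 <= 1/8`, `θ <= 1/8`, `J >= N0 + 2`, `J >= 4`,
`n >= J`. `∫_{x>=σ/2} λ^7ρ^{4n}x^{α-7} dy = λ^6ρ^{4n}∫_{σ/2}^∞x^{α-7}dx = Cλ^6σ^{α-6}ρ^{4n} = Cρ^{6+4n}σ^α` (for
`y >= -ρ^{-θ}`, `x >= σ/2`). Near part: `ρ^{2J}∫_{-ρ^{-θ}}^0(1+|y|)^{2n1} <= Cρ^{2J}ρ^{-θ(2n1+1)} <= Cρ^{2J-1/2}`; right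
`Cρ^{2J}`. Left with weight: `wt K ρ y <= ρ^{-1}e^{y/K}`, `∫_{y<=-ρ^{-θ}}ρ^{-1}e^{y/K}C <= CKρ^{-1}e^{-ρ^{-θ}/K} <=
Cρ^{2N0+1}`. All is `<= Cρ^{2N0+1} <= ρ^{2N0}` for `T` small. Left without weight: `ρ^3` on `[-2ρ^{-1/2},-ρ^{-θ}]`:
`<= 2ρ^{5/2}`, and `Ce^{-2ρ^{-1/2}}` beyond.
`rsup`: all bounds are `<= ρ^{5/4}` for `T` small (`λ^{7/2}x^{α/2-7/2} <= Cρ^{7/2}`). -/
def S_RESI : Prop :=
  ∀ (α K θ C : ℝ) (J n N0 n1 : ℕ), 0 < α → α < 1 → 1 ≤ K → 0 < θ → θ ≤ 1/8 → θ * n1 ≤ 1/8 →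
    N0 + 2 ≤ J → 4 ≤ J → J ≤ n → ∃ T C' : ℝ, 0 < T ∧ ∀ t ∈ Set.Ioc 0 T, ∀ E : ℝ → ℝ,
      ContDiff ℝ (⊤ : ℕ∞) E →
      (∀ y : ℝ, ∀ k ≤ 1,
        (-1 ≤ rho α t ^ θ * y → y ≤ 0 → |iteratedDeriv k E y|
            ≤ C * rho α t ^ J * (1 + |y|) ^ n1
              + C * lam α t ^ ((7 : ℝ)/2) * rho α t ^ (2 * n)
                * (sig α t + lam α t * y) ^ (α/2 - 7/2)) ∧
        (0 ≤ y → |iteratedDeriv k E y|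
            ≤ C * rho α t ^ J * Real.exp (-y / 4)
              + C * lam α t ^ ((7 : ℝ)/2) * rho α t ^ (2 * n)
                * (sig α t + lam α t * y) ^ (α/2 - 7/2)) ∧
        (rho α t ^ θ * y ≤ -1 → |iteratedDeriv k E y| ≤ C * rho α t ^ ((3 : ℝ) / 2)) ∧
        (y ≤ -(2 * rho α t ^ (-((1 : ℝ) / 2))) → |iteratedDeriv k E y|
            ≤ C * Real.exp (-|y| / 2))) →
      (∫ y, wt K (rho α t) y * (E y ^ 2 + deriv E y ^ 2)) ≤ rho α t ^ (2 * N0) ∧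
      Integrable (fun y => E y ^ 2 + deriv E y ^ 2) ∧
      (∫ y, (E y ^ 2 + deriv E y ^ 2)) ≤ C' * rho α t ^ ((5 : ℝ) / 2) ∧
      (∀ y, |E y| ≤ rho α t ^ ((5 : ℝ) / 4))

/-- **FZ2 (0.4 h).** Sharp size of the initial right field. No hypotheses.
PROOF.  For `0 < x < 1` `|fZero| <= x^{α-1/2} |Σ_{j<J} x^{2αj}p_j(log x)|`; the `j = 0` term is the constant `p_0`,
the other ones are bounded (`x^{2α}|log x|^b <= C`). For `x >= 1` the cut-off vanishes. (`gZero` of DefsC.) -/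
def S_FZ2 : Prop :=
  ∀ (α k : ℝ) (p : ℕ → Polynomial ℝ) (J : ℕ), 0 < α → α < 1 → p 0 = Polynomial.C k →
    ∃ C : ℝ, ∀ x, 0 < x → |fZero α p J x| ≤ C * x ^ (α - 1/2)

/-- **L2C (1.2 h).** Convergence in `L^2` and mass. Hypotheses: `S_FS`, `S_CURV`, `S_QF`, `S_FHB`.
PROOF.  `f0 ∈ L^2`: `|f0| <= Cx^{α-1/2}` on `(0,1)`, zero outside, `∫_0^1x^{2α-1} = 1/(2α)`.
`W - Sol = outr α (v - Q)`; `∫_{x<σ}(W-Sol)^2 = ∫_{y<0}(v-Q)^2 <= Cρ^2 * 2ρ^{-1/2} + ∫_{y<-2ρ^{-1/2}}C e^{-|y|} <= Cρ^{3/2}`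
(neg0, tail, `Q <= Ce^{-|y|}`), `∫_{x<σ}f0^2 <= C∫_0^σx^{2α-1} = Cσ^{2α} = Cρ`.
`x >= σ`: `W - Sol - f0 = outr(v - Q - F̂) + (F - f0)`; first part: `∫C ρ^{7/4}e^{-y} <= Cρ^{7/4}`; second:
`|F - f0| <= Σ_{1<=i<=n}t^iCx^{α/2-1/2-3i} <= Ctx^{α/2-7/2}` (`t <= x^3`), `∫_σ^∞ <= Ct^2σ^{α-6} <= Cσ^{9α} <= Cρ`
(`t <= σ^{4α+3}`).
Mass: `∫W^2 = ∫v^2 = ∫Q^2 + 2∫Q(v-Q) + ∫(v-Q)^2`, `|v-Q| <= Cρ^{3/4}` (UBd, FHB) so the middle term is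
`<= Cρ^{3/4}`, and `|∫(v-Q)^2 - ∫f0^2| = |∫(W-Sol)^2 - ∫f0^2| <= C ‖W-Sol-f0‖ <= Cρ^{1/2}` by the first part
(triangle inequality in `L^2`). -/
def S_L2C : Prop :=
  ∀ (α T0 C0 C1 T1 : ℝ) (v : ℝ → ℝ → ℝ) (f0 : ℝ → ℝ) (n : ℕ), 0 < α → α < 1 →
    IsS (α/2 - 1/2) f0 → (∀ x, 0 < x → |f0 x| ≤ C1 * x ^ (α - 1/2)) → 0 < T0 → T0 < T1 →
    ContDiffOn ℝ (⊤ : ℕ∞) (fun q : ℝ × ℝ => v q.1 q.2) (Set.Ioo 0 T1 ×ˢ Set.univ) →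
    (∀ t ∈ Set.Ioo 0 T1, ∀ x, x ∉ Set.Icc (-1 : ℝ) 1 → outr α v t x = 0) →
    UBd α T0 C0 v (Fhat α f0 n) →
    MemLp f0 2 ∧ ∃ T C : ℝ, 0 < T ∧ T ≤ T0 ∧
      (∀ t ∈ Set.Ioc 0 T,
        Integrable (fun x => (outr α v t x - outr α (fun _ => Q) t x - f0 x) ^ 2) ∧
        (∫ x, (outr α v t x - outr α (fun _ => Q) t x - f0 x) ^ 2) ≤ C * rho α t) ∧
      (∀ t ∈ Set.Ioc 0 T, ∀ s ∈ Set.Ioc 0 T,
        |(∫ x, outr α v t x ^ 2) - ∫ x, outr α v s x ^ 2|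
          ≤ C * (rho α t + rho α s) ^ ((1 : ℝ) / 2))

/-- **ZV (1 h).** The profiles have the properties required by section F. Hypotheses: `S_QF`, `S_ECL1`,
`S_GREEN`, `S_PAIR`.
PROOF.  `Z = 1 + R - (4/I)P` (`k_1 > 0`). Tail: right `→ 1`, left `1 - (4/I)(I/2) = -1`:
`Z - tanh(2y) = R - (4/I)(P - (I/2)χ_-) + [1 - 2χ_- - tanh 2y] = R - (4/I)(P - (I/2)χ_-)` since
`χ_- = (1-tanh 2y)/2`; `IsE`. Equation: `LZ = 1 - (4/I)LP`. Odd: `y0(y) = Z(y) + Z(-y)` is `IsE` (tails cancel),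
`(L y0)' = -(4/I)(ΛQ(y) - ΛQ(-y)) = 0` and `Ly0 → 0` (it is `IsE`), so `Ly0 = 0`; `∫y0Q' = 0` by parity;
GREEN uniqueness gives `y0 = 0`. Bounded: `IsE + tanh`.
`V_2 = cc y + c1 + ω_2`, `cc = (α-1/2)κ`; `ω_2 - (a0 - 2cc y)χ_- ∈ IsE` and
`cc y + c1 + (a0 - 2 cc y)(1 - th)/2 = c1 + a0/2 - (a0/2) th + cc y th`, which is the required form with
`p = c1 + a0/2`, `q = -a0/2`. The equation is `Dat.eq2` (`k_1 + w_1 = κZ`, `Lam (κZ) = κ Lam Z`). -/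
def S_ZV : Prop :=
  ∀ (R P : ℝ → ℝ), IsRP R P → ∀ α : ℝ, 0 < α → α < 1 →
    kap α = kOne α ∧ 0 < kOne α ∧ IsZ1 (Zp α R P) ∧
    (∀ y, Zp α R P y = 1 + R y - 4 / IQ * P y) ∧ (∃ M : ℝ, ∀ y, |Zp α R P y| ≤ M) ∧
    ∀ (J n : ℕ) (h0 h1 h2 h3 : ℝ → ℝ) (p : ℕ → Polynomial ℝ) (c1 a0 : ℝ)
      (ω2 ω3 : ℝ → ℝ) (e3 : Polynomial ℝ) (w : F3),
      Dat α J n R P h0 h1 h2 h3 p c1 a0 ω2 ω3 e3 w → IsV2 α (Zp α R P) (V2p α c1 ω2)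

/-- **FINW: the final statement of sections C, D.** (Assembly, done by helper41.) -/
def S_FINW : Prop :=
  ∃ (R P : ℝ → ℝ), IsRP R P ∧ ∀ α : ℝ, 0 < α → α < 1 →
    IsZ1 (Zp α R P) ∧ (∀ y, Zp α R P y = 1 + R y - 4 / IQ * P y) ∧
    ∃ (M C : ℝ) (V2 : ℝ → ℝ), (∀ y, |Zp α R P y| ≤ M) ∧ IsV2 α (Zp α R P) V2 ∧
      ∀ (N0 : ℕ) (K : ℝ), 64 ≤ K →
      ∃ (T C2 : ℝ) (f0 : ℝ → ℝ) (W Wt r r' : ℝ → ℝ → ℝ), 0 < T ∧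
        ∀ T' : ℝ, 0 < T' → T' ≤ T →
          Bg α N0 K T' C 0 (Zp α R P) V2 W Wt r r' ∧ BgL α T' C2 f0 W Wt ∧
          BgY α K T' C2 M W Wt

end Pool.Agent.Helper41.KV
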