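import Pool.Agent.Helper41.KV.FINWA
import Pool.Agent.Helper61.KV.QF
import Pool.Agent.Helper61.KV.ECL1
import Pool.Agent.Helper55.KV.ECL2
import Pool.Agent.Helper90.KV.GREEN
import Pool.Agent.Helper56.KV.SOLVEP
import Pool.Agent.Helper38.KV.PR
import Pool.Agent.Helper93.KV.MCL1
import Pool.Agent.Helper83.KV.MCL2
import Pool.Agent.Helper79.KV.BEXP
import Pool.Agent.Helper49.KV.PAIR
import Pool.Agent.Helper90.KV.LSOLVE
import Pool.Agent.Helper13.KV.EXP
import Pool.Agent.Helper19.KV.CSTEP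
import Pool.Agent.Helper55.KV.PHI
import Pool.Agent.Helper59.KV.AUXF
import Pool.Agent.Helper42.KV.FHAM
import Pool.Agent.Helper75.KV.CALLU
import Pool.Agent.Helper8.KV.FHN
import Pool.Agent.Helper38.KV.DATU
import Pool.Agent.Helper90.KV.ISS
import Pool.Agent.Helper55.KV.FZ
import Pool.Agent.Helper83.KV.FS
import Pool.Agent.Helper57.KV.EXPL
import Pool.Agent.Helper49.KV.CURV
import Pool.Agent.Helper90.KV.INNR
import Pool.Agent.Helper69.KV.TD
import Pool.Agent.Helper31.KV.VREP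
import Pool.Agent.Helper93.KV.SMW
import Pool.Agent.Helper70.KV.HC
import Pool.Agent.Helper70.KV.CHN
import Pool.Agent.Helper59.KV.FHB
import Pool.Agent.Helper77.KV.UB
import Pool.Agent.Helper94.KV.BF
import Pool.Agent.Helper71.KV.RB
import Pool.Agent.Helper42.KV.RESP
import Pool.Agent.Helper51.KV.RESI
import Pool.Agent.Helper61.KV.FZ2
import Pool.Agent.Helper99.KV.L2C
import Pool.Agent.Helper61.KV.ZV

/-!
# Project KV (`MP_66be51_an`): `S_FINW`, the approximate solution, without hypotheses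
-/

namespace Pool.Agent.Helper41.KV

open Real MeasureTheory Pool.Agent.Helper33.KV

/-- **Final theorem of sections C, D (and E).** -/
theorem FINW : S_FINW := by
  have hQ : S_QF := thm_QF
  have hE : S_ECL1 := thm_ECL1
  have hE2 : S_ECL2 := thm_ECL2 hE
  have hG : S_GREEN := thm_GREEN hQ hE
  have hS : S_SOLVEP := Pool.Agent.Helper56.KV.thm_SOLVEP hQ hE hE2 hG
  have hPR : S_PR := thm_PR hQ hE hE2 hG hS
  have hM : S_MCL1 := Pool.Agent.Helper93.KV.MCL1.thm_MCL1 hQ hE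
  have hM2 : S_MCL2 := thm_MCL2 hQ hE
  have hB : S_BEXP := thm_BEXP hQ hE hM
  have hP : S_PAIR := thm_PAIR hQ hE hE2
  have hL : S_LSOLVE := Pool.Agent.Helper90.KV.thm_LSOLVE hQ hE hE2 hS
  have hX : S_EXP := thm_EXP hQ hE hM
  have hCS : S_CSTEP := thm_CSTEP hQ hE hM hM2 hX hP hL
  have hPhi : S_PHI := thm_PHI
  have hAux : S_AUXF := thm_AUXF
  have hFH : S_FHAM := Pool.Agent.Helper42.KV.thm_FHAM hQ hE hM hM2 hPhi
  have hCU : S_CALLU := thm_CALLU hQ hE hE2 hS hM hM2 hB hP hL hCS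
  have hFN : S_FHN := thm_FHN hM hM2 hPhi
  have hD : S_DATU := thm_DATU hCU hFN hFH hAux
  have hI : S_ISS := Pool.Agent.Helper90.KV.SS.thm_ISS
  have hFZ : S_FZ := thm_FZ hI
  have hFS : S_FS := thm_FS hI
  have hEX : S_EXPL := thm_EXPL
  have hC : S_CURV := thm_CURV
  have hIN : S_INNR := Pool.Agent.Helper90.KV.thm_INNR hEX hC hPhi
  have hTD : S_TD := thm_TD hC hM hM2
  have hV : S_VREP := thm_VREP hIN hC
  have hSM : S_SMW := thm_SMW hFZ hFS hC hM hV
  have hFB : S_FHB := thm_FHB hFS hC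
  exact thm_FINW hPR hD hC hFZ thm_FZ2 hSM thm_HC (thm_CHN hC)
    (Pool.Agent.Helper77.KV.thm_UB hQ hE hM hM2 hP hC hV hTD hFB hSM) (thm_BF hQ hC hFB)
    (Pool.Agent.Helper71.KV.RB.thm_RB hQ hM hP hC hV hTD hFZ hFB hSM)
    (Pool.Agent.Helper42.KV.R.thm_RESP hQ hE hM hM2 hP hC hIN hV hTD hFZ hFS hFB hSM)
    (thm_RESI hC) (thm_L2C hQ hFS hC hFB) (thm_ZV hQ hE hG hP)

end Pool.Agent.Helper41.KV
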