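import Pool.Agent.Helper41.KV.Defs

/-!
# Project KV (`MP_66be51_an`), section E: spectral facts, Green function, function classes

Every goal is a `def S_... : Prop` with a complete proof in the doc string.  All are independent
of each other except where a goal is said to be a hypothesis.
Notation: `c = cosh(2y)`, `s = sinh(2y)`, `th = tanh(2y) = s/c`, `sech = 1/c`.
-/

namespace Pool.Agent.Helper41.KV

open Real MeasureTheory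

/-- **QF (0.7 h).** Elementary facts on `Q`.
PROOF.  `Q y = 3^{1/4} * (cosh(2y))^{-1/2}` (real powers; `cosh > 0`), hence smooth, positive, even,
and `Q^4 = 3/cosh^2`.  Derivative: `Q' = 3^{1/4} * (-1/2) c^{-3/2} * 2 s = -Q th`.
Then `Q'' = -Q' th - Q * 2 (1 - th^2) = Q th^2 - 2 Q sech^2 = Q - 3 Q sech^2 = Q - Q^5`
(use `th^2 = 1 - sech^2`, `Q^4 = 3 sech^2`).
Decay: by induction on `k` there is a polynomial `p_k` with `iteratedDeriv k Q y = Q y * p_k(th)`: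
`p_0 = 1`, `p_{k+1} = -X p_k + 2 (1 - X^2) p_k'`.  As `|th| <= 1`, `|p_k(th)| <= C_k`, and
`Q y <= 3^{1/4} * 2^{1/2} * e^{-|y|}` because `cosh(2y) >= e^{2|y|}/2`. Lower bound: `cosh(2y) <= e^{2|y|}`. -/
def S_QF : Prop :=
  ContDiff ℝ (⊤ : ℕ∞) Q ∧ (∀ y, 0 < Q y) ∧ (∀ y, Q (-y) = Q y) ∧
  (∀ y, Q y ^ 4 = 3 / (Real.cosh (2 * y)) ^ 2) ∧
  (∀ y, deriv Q y = -(Q y * Real.tanh (2 * y))) ∧
  (∀ y, deriv (deriv Q) y = Q y - Q y ^ 5) ∧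
  (∀ k : ℕ, ∃ C : ℝ, ∀ y, |iteratedDeriv k Q y| ≤ C * Real.exp (-|y|)) ∧
  (∀ y, Real.exp (-|y|) ≤ Q y)

/-- **ECL1 (1 h).** Closure properties of the classes.
PROOF.  All are the Leibniz rule / linearity for `iteratedDeriv`
(`iteratedDeriv_add`, `iteratedDeriv_const_mul`, `iteratedDeriv_mul` or
`norm_iteratedFDeriv_mul_le`), and `(1+|y|)^n e^{-mu' |y|} <= C e^{-mu |y|}` for `mu < mu' < 1`
(`(1+x)^n e^{-(mu'-mu) x}` is bounded on `x >= 0`; take `mu' = (mu+1)/2`).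
`deriv`: `iteratedDeriv k (deriv f) = iteratedDeriv (k+1) f`.
Integrability of `f ∈ IsE`: continuous and dominated by `C e^{-|y|/2}`; the same bound
shows `f * g` integrable for `f ∈ IsP`, `g ∈ IsE`. `th = tanh (2 y)` is in `IsP`: its derivatives are
polynomials in `th`; `sech^2 (2y) ∈ IsE`: its derivatives are `sech^2 * polynomial(th)` and
`sech^2(2y) <= 4 e^{-4|y|}`. -/
def S_ECL1 : Prop :=
  (∀ f, IsE f → IsW f) ∧ (∀ f, IsW f → IsP f) ∧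
  (∀ f g, IsE f → IsE g → IsE (fun y => f y + g y)) ∧
  (∀ f g, IsW f → IsW g → IsW (fun y => f y + g y)) ∧
  (∀ f g, IsP f → IsP g → IsP (fun y => f y + g y)) ∧
  (∀ f g, IsP f → IsE g → IsE (fun y => f y * g y)) ∧
  (∀ f g, IsP f → IsW g → IsW (fun y => f y * g y)) ∧
  (∀ f g, IsP f → IsP g → IsP (fun y => f y * g y)) ∧
  (∀ f, IsE f → IsE (deriv f)) ∧ (∀ f, IsW f → IsW (deriv f)) ∧ (∀ f, IsP f → IsP (deriv f)) ∧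
  (∀ p : Polynomial ℝ, IsP (fun y => p.eval y)) ∧
  IsP (fun y => Real.tanh (2 * y)) ∧ IsE (fun y => 1 / (Real.cosh (2 * y)) ^ 2) ∧
  (∀ f, IsE f → IsE (fun y => f (-y))) ∧
  (∀ f g, IsP f → IsE g → Integrable (fun y => f y * g y)) ∧
  (∀ f, IsE f → Integrable f)

/-- **ECL2 (0.7 h).** Primitives.
PROOF.  (1) `F(y) = ∫_{-∞}^y f` has `F' = f`, `|F(y)| <= C e^{-mu|y|}` for `y <= 0` by integrating
the bound, and for `y >= 0` because `F(y) = -∫_y^∞ f` (total integral zero); the derivatives of order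
`k+1` of `F` are those of `f` of order `k`.  (2) `G(y) = -∫_y^∞ R`, `G' = R`, exponential decay for
`y >= 0`, and `|G(y)| <= |G(0)| + ∫_y^0 C (1+|t|)^n <= C'(1+|y|)^{n+1}` for `y <= 0`. -/
def S_ECL2 : Prop :=
  (∀ f, IsE f → (∫ y, f y) = 0 →
    ∃ F, IsE F ∧ (∀ y, HasDerivAt F (f y) y)) ∧
  (∀ R, IsW R → ∃ G, IsW G ∧ (∀ y, HasDerivAt G (R y) y))

/-- **COERC (1.2 h).** Spectral gap of `L` on `{Q^3, Q'}^⊥`: ladder argument.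
PROOF.  Write `th = tanh 2y`, `sech = sech 2y`, `|.|` = L2 norm, `(.,.)` = L2 product.
Operators `A = d + 3 th`, `A* = -d + 3 th`, `B = d + th`, `B* = -d + th`.
For `f ∈ C^1` with `f, f' ∈ L2` (then `f → 0` at `±∞`; all boundary terms vanish), expanding the
square and integrating `∫ th (f^2)' = -2 ∫ sech^2 f^2`:
 (i)   `|A f|^2  = ∫ f'^2 + 9 f^2 - 15 sech^2 f^2`   `( = ∫ (f'^2 + f^2 - 5 Q^4 f^2) + 8 |f|^2 )`,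
 (ii)  `|A* f|^2 = ∫ f'^2 + 9 f^2 -  3 sech^2 f^2`,
 (iii) `|B f|^2  = ∫ f'^2 +   f^2 -  3 sech^2 f^2`,
 (iv)  `|B* f|^2 = ∫ f'^2 +   f^2 +    sech^2 f^2  >= |f|^2`.
LEMMA R. Let `p > 0`, `z ∈ C^0 ∩ L2 ∩ L∞`, `∫ c^{-p/2} z = 0` (`c = cosh 2y`). Then
`w(y) = -c^{p/2} ∫_{-∞}^y c^{-p/2} z = c^{p/2} ∫_y^∞ c^{-p/2} z` is `C^1`, solves
`-w' + p th w = z`, is bounded (`|w| <= C sup|z|`, since `c(y)^{p/2} c(t)^{-p/2} <= 2^{p/2} e^{-p|t-y|}`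
for `t >= y >= 0`, and similarly on the left) and `w, w' ∈ L2`:
`(w^2)' = 2 p th w^2 - 2 z w`, so for `y >= y0` with `2 p th >= p` there:
`p ∫_{y0}^R w^2 <= w(R)^2 - w(y0)^2 + 2∫_{y0}^R |z w| <= C + (2/p)∫ z^2 + (p/2)∫_{y0}^R w^2`;
the same on the left. Then `w' = p th w - z ∈ L2`.
STEP 1. Let `f` be as in the statement, `ξ = A f ∈ L2 ∩ C^0`. As `f ⟂ c^{-3/2}` (`Q^3` is a multiple
of `c^{-3/2}`) Lemma R with `p = 3` gives `w` with `A* w = f`, `w, w' ∈ L2`.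
Then `|f|^2 = (f, A* w) = (A f, w) = (ξ, w) <= |ξ| |w|`.
STEP 2. `(w, Q) = 0`: `A Q' = Q'' + 3 th Q' = -2 Q` (QF), so `-2 (w,Q) = (w, A Q') = (A* w, Q') =
(f, Q') = 0`. Since `Q` is a multiple of `c^{-1/2}`, Lemma R with `p = 1` and `z = w` gives `χ` with
`B* χ = w`, `χ, χ' ∈ L2`. By (iv) `|χ| <= |B* χ| = |w|`, and `|w|^2 = (w, B* χ) = (B w, χ) <= |B w||w|`,
so `|B w| >= |w|`.
STEP 3. By (ii),(iii) `|f|^2 = |A* w|^2 = |B w|^2 + 8 |w|^2 >= 9 |w|^2`. With Step 1: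
`|f|^2 <= |ξ||w| <= |ξ||f|/3`, so `|ξ|^2 >= 9|f|^2`, i.e. by (i) `∫ (f'^2 + f^2 - 5Q^4f^2) >= |f|^2`.
STEP 4. `5Q^4 <= 15`, so `16 Λ >= Λ + 15|f|^2 >= ∫ f'^2 + f^2` where `Λ = ∫(f'^2+f^2-5Q^4f^2)`. -/
def S_COERC : Prop :=
  ∀ f : ℝ → ℝ, ContDiff ℝ 1 f → MemLp f 2 → MemLp (deriv f) 2 →
    (∫ y, f y * Q y ^ 3) = 0 → (∫ y, f y * deriv Q y) = 0 →
    (∫ y, f y ^ 2) ≤ (∫ y, (deriv f y ^ 2 + f y ^ 2 - 5 * Q y ^ 4 * f y ^ 2)) ∧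
    (∫ y, (deriv f y ^ 2 + f y ^ 2)) ≤
      16 * ∫ y, (deriv f y ^ 2 + f y ^ 2 - 5 * Q y ^ 4 * f y ^ 2)

/-- **WCOERC (1 h).** Weighted coercivity with the logistic weight. Hypothesis: `S_COERC`, `S_QF`.
PROOF.  Put `φ = wt K ρ`, `g = √φ f`. `φ' = φ(1-φ)/K`, so `g' = √φ f' + (√φ (1-φ)/(2K)) f` and
`|g'^2 - φ f'^2| <= (1/K) φ |f f'| + (1/(4K^2)) φ f^2 <= (1/K) φ (f'^2 + f^2)` (`K >= 1`).
`|1-√φ| <= 1-φ` and `(1-√φ)/√φ <= (1-φ)/φ = ρ e^{-y/K}`, so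
`|∫ g Q^3| = |∫ (√φ - 1) f Q^3| <= ∫ |g| ρ e^{-y/K} Q^3 <= C0 ρ |g|` (`K >= 1`, `Q^3 <= C e^{-3|y|}`), and the
same for `Q'`. Let `g = a Q^3 + b Q' + g1` with `g1 ⟂ Q^3, Q'` (`Q^3 ⟂ Q'` by parity), so
`|a|+|b| <= C1 ρ |g|`. With `Λ(g) = ∫(g'^2+g^2-5Q^4g^2)`, a quadratic form with
`|Λ(g,h)| <= 16 |g|_{H1}|h|_{H1}`, `Λ(g) >= Λ(g1) - C2 ρ |g|_{H1}^2 >= |g1|_{H1}^2/16 - C2 ρ |g|_{H1}^2
>= (1/16 - C3 ρ)|g|_{H1}^2`. Finally `∫ φ(f'^2+f^2-5Q^4f^2) >= Λ(g) - (1/K)∫φ(f'^2+f^2)` and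
`|g|_{H1}^2 >= (1-1/K)∫φ(f'^2+f^2)`. For `K >= 64` and `ρ <= ρ0` small:
`(1/16 - C3 ρ)(1-1/K) - 1/K >= 1/32`. -/
def S_WCOERC : Prop :=
  ∀ K : ℝ, 64 ≤ K → ∃ ρ0 : ℝ, 0 < ρ0 ∧ ∀ ρ : ℝ, 0 < ρ → ρ ≤ ρ0 →
   ∀ f : ℝ → ℝ, ContDiff ℝ 1 f → MemLp f 2 → MemLp (deriv f) 2 →
    (∫ y, f y * Q y ^ 3) = 0 → (∫ y, f y * deriv Q y) = 0 →
    (∫ y, wt K ρ y * (deriv f y ^ 2 + f y ^ 2)) ≤
      32 * ∫ y, wt K ρ y * (deriv f y ^ 2 + f y ^ 2 - 5 * Q y ^ 4 * f y ^ 2)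

/-- **GREEN (1 h).** Inversion of `L` on `IsE`. May use `S_QF`, `S_ECL1` as hypotheses.
PROOF.  Let `c = cosh 2y`, `s = sinh 2y`, `φ1 = c^{-3/2} s` (`Q' = -3^{1/4} φ1`),
`Z = c^{1/2} - 2 c^{-3/2}`. Since `(c^p)'' = 4p^2 c^p - 4p(p-1)c^{p-2}`,
`Z'' = c^{1/2} + c^{-3/2} - 18 c^{-3/2} + 30 c^{-7/2}` and `L Z = -Z'' + Z - 15 c^{-2} Z = 0`; `L φ1 = 0`
(from `Q''' = Q' - 5Q^4Q'`). Wronskian `φ1 Z' - φ1' Z` is constant `= 2` (value at `0`: `φ1(0) = 0`,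
`φ1'(0) = 2`, `Z(0) = -1`). Put
`w0(y) = (1/2) [ φ1(y) ∫_0^y Z g + Z(y) ∫_y^∞ φ1 g ]`.
Then `w0' = (1/2)[φ1' ∫_0^y Z g + Z' ∫_y^∞ φ1 g]`, `w0'' = (1/2)[φ1''.. + Z''..] + (1/2)(φ1' Z - Z' φ1) g`
`= ... - g`, so `L w0 = g`; `w0` is smooth. Bounds for `0 < μ < 1`, `y >= 0`: `|φ1|,|φ1'| <= C e^{-|y|}`,
`|Z|,|Z'| <= C e^{|y|}`, so both products are `<= C e^{-μ y}`. For `y <= 0` use
`∫_y^∞ φ1 g = -∫_{-∞}^y φ1 g` (hypothesis) and the same bounds. So `w0, w0' = O(e^{-μ|y|})`, and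
`w0'' = w0 - 15c^{-2}w0 - g` gives all higher derivatives by (strong) induction and Leibniz.
Finally `w = w0 - (∫w0 Q'/∫Q'^2) Q'`.
Uniqueness: if `L w = 0`, `w ∈ IsE`: the Wronskian `w φ1' - w' φ1` is constant and tends to `0`, hence `0`,
so `w = const φ1` (on `y>0` and `y<0` `w/φ1` is constant; the two constants agree because
`w'(0) = const φ1'(0)` from both sides), and `∫ w Q' = 0` kills the constant.
Parity: if `g` is even (odd) then `y ↦ ± w(-y)` solves the same problem, so by uniqueness `w` has the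
parity of `g` (note `∫ w(-y) Q'(y) dy = -∫ w Q' = 0`). -/
def S_GREEN : Prop :=
  (∀ g, IsE g → (∫ y, g y * deriv Q y) = 0 →
    ∃ w, IsE w ∧ (∀ y, Lop w y = g y) ∧ (∫ y, w y * deriv Q y) = 0 ∧
      ((∀ y, g (-y) = g y) → ∀ y, w (-y) = w y) ∧
      ((∀ y, g (-y) = - g y) → ∀ y, w (-y) = - w y)) ∧
  (∀ w, IsE w → (∀ y, Lop w y = 0) → (∫ y, w y * deriv Q y) = 0 → ∀ y, w y = 0)

/-- The left cut-off `χ_-(y) = (1 - tanh 2y)/2`. -/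
noncomputable def chiM (y : ℝ) : ℝ := (1 - Real.tanh (2 * y)) / 2

/-- Functions with an exact polynomial tail `q` on the left and exponentially decaying on the right. -/
def HasTail (q : Polynomial ℝ) (f : ℝ → ℝ) : Prop := IsE (fun y => f y - q.eval y * chiM y)

/-- **SOLVEP (0.7 h).** Inversion with polynomial left tails. Hypotheses allowed: `S_GREEN`, `S_ECL1`,
`S_ECL2`, `S_QF`.
PROOF.  Let `R = p χ_- + e`. There is a polynomial `P1` with `P1' = p`; `P1 χ_-` has derivative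
`p χ_- + P1 χ_-'` and `χ_-' = -sech^2(2y)`, so `R - (P1 χ_-)' =: e1 ∈ IsE`. Choose the constant
term of `P1` such that `∫ e1 = 0` (changing `P1` by the constant `a` changes `∫ e1` by
`a ∫ sech^2(2y) = a`). By ECL2 there is `E1 ∈ IsE` with `E1' = e1`; put `G = P1 χ_- + E1`: `G' = R`.
Let `q = Σ_{i>=0} D^{2i} P1` (finite sum), so `q - q'' = P1`. Then
`g2 = G - L(q χ_-) = E1 + (P1 - q + q'') χ_- + 2 q' χ_-' + q χ_-'' + 15 sech^2 q χ_- ∈ IsE`.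
`∫ g2 Q' = ∫ G Q' - ∫ L(qχ_-) Q' = -∫ R Q - ∫ q χ_- L Q' = 0` (integrations by parts, boundary terms
vanish since `Q` and derivatives are `O(e^{-|y|})` and the other factor is polynomially bounded).
GREEN gives `w2 ∈ IsE` with `L w2 = g2`; `w = q χ_- + w2` satisfies `L w = G`, so `(L w)' = R`, and
`HasTail q w`. Uniqueness up to a multiple of `Q'` is not needed. -/
def S_SOLVEP : Prop :=
  ∀ (p : Polynomial ℝ) (R : ℝ → ℝ), HasTail p R → (∫ y, R y * Q y) = 0 →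
    ∃ (q P1 : Polynomial ℝ) (w : ℝ → ℝ), HasTail q w ∧
      (∀ y, HasDerivAt (Lop w) (R y) y) ∧
      P1.derivative = p ∧ q - q.derivative.derivative = P1 ∧
      IsE (fun y => Lop w y - P1.eval y * chiM y)

/-- **PR (1 h).** The profiles `R` and `P`. Hypotheses allowed: `S_GREEN`, `S_SOLVEP`, `S_ECL1`, `S_QF`.
PROOF.  `L 1 = 1 - 5Q^4`, so `L R = 5 Q^4` is solvable by GREEN (`5Q^4` even, `∫5Q^4Q' = 0`), `R` even.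
`ΛQ = Q/2 + yQ'`, `∫ ΛQ Q = 0` (integration by parts), so SOLVEP (with `p = 0`) gives `P`, `(LP)' = ΛQ`,
`P1` constant `= lim_{-∞} LP = -∫ΛQ = (1/2)∫Q` and `q = P1`.
`L(ΛQ) = -2Q`: direct: `(yQ')'' = 2Q'' + yQ'''`, `L(yQ') = y LQ' - 2Q'' = -2Q''`,
`L(Q/2) = (1/2)(-Q''+Q-5Q^5) = -2Q^5`, sum `-2(Q - Q^5) - 2Q^5 = -2Q`.
`(P,Q) = -(1/2)(P, LΛQ) = -(1/2)(LP, ΛQ) = -(1/2)∫ (LP)(LP)' = -(1/4)[(LP)^2] = (1/4)((1/2)∫Q)^2`.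
`(1+R, Q) = -(1/2)(1+R, LΛQ) = -(1/2)(1,ΛQ) = (1/4)∫Q`. -/
def S_PR : Prop :=
  (∀ y, Lop (Lam Q) y = -2 * Q y) ∧
  ∃ R P : ℝ → ℝ,
    IsE R ∧ (∀ y, R (-y) = R y) ∧ (∀ y, Lop (fun x => 1 + R x) y = 1) ∧
    (∫ y, (1 + R y) * Q y) = (∫ y, Q y) / 4 ∧
    HasTail (Polynomial.C ((∫ y, Q y) / 2)) P ∧
    (∀ y, HasDerivAt (Lop P) (Lam Q y) y) ∧
    IsE (fun y => Lop P y - ((∫ y, Q y) / 2) * chiM y) ∧
    (∫ y, P y * Q y) = (∫ y, Q y) ^ 2 / 16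

/-- **WGN (0.8 h).** Weighted Gagliardo-Nirenberg inequalities (`w` any weight with `|w'| <= w`).
PROOF.  Let `N = ∫ f^2` and `A = ∫ w (f''^2 + f^2)`. All functions tend to zero at `±∞`
(`f, f', f'' ∈ L2`, `w` bounded). Everything is a one-dimensional fundamental theorem of calculus.
(d) `∫ w f'^2 = -∫ w f f'' - ∫ w' f f' <= (1/2)∫w f^2 + (1/2)∫w f''^2 + (1/2)∫ w f^2 + (1/2)∫ w f'^2`, so
   `∫ w f'^2 <= 2 A`.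
(s) With `v = w^{1/2}`: `|v'| <= v/2`. `∫ v f'^2 = -∫ v f f'' - ∫ v' f f' <= √N √A + (1/2)∫ v|f f'|
   <= √N√A + (1/4)∫ v f^2 + (1/4)∫ v f'^2`, and `∫ v f^2 <= √N (∫ w f^2)^{1/2} <= √N√A`; so
   `∫ v f'^2 <= 2 √N √A` and `∫ v f^2 <= √N√A`.
(p) with `u = w^{1/4}`, `|u'| <= u/4`: `u f^2 (y) = ∫_{-∞}^y (u f^2)' <= ∫ (u/4) f^2 + 2u|f f'| <=
   √N [ (1/4)(∫ v f^2)^{1/2} + 2 (∫ v f'^2)^{1/2} ] <= 4 √N (√N √A)^{1/2}`, so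
   `sup (u f^2)^2 <= 16 N^{3/2} A^{1/2}` and `sup (u f^2)^4 <= 256 N^3 A`.
(a) `∫ w f^10 = ∫ (u f^2)^4 f^2 <= 256 N^4 A`.
(b) `∫ w f^4 f'^2 = ∫ (u f^2)^2 v f'^2 <= 16 N^{3/2}A^{1/2} * 2 N^{1/2} A^{1/2} = 32 N^2 A`.
(c) `∫ w f^6`: `v f^2 (y) <= ∫ (v/2) f^2 + 2 v |f f'| <= √N [ (1/2)(∫w f^2)^{1/2} + 2 (∫ w f'^2)^{1/2} ]`,
   so `sup (v f^2)^2 <= 8 N ∫ w(f^2+f'^2)` and `∫ w f^6 <= 8 N^2 ∫ w (f^2 + f'^2)`. -/
def S_WGN : Prop :=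
  ∀ (w : ℝ → ℝ) (M : ℝ), ContDiff ℝ 1 w → (∀ y, 0 < w y) → (∀ y, w y ≤ M) → (∀ y, |deriv w y| ≤ w y) →
   ∀ f : ℝ → ℝ, ContDiff ℝ 2 f → MemLp f 2 → MemLp (deriv f) 2 → MemLp (deriv (deriv f)) 2 →
    (∫ y, w y * deriv f y ^ 2) ≤ 2 * ∫ y, w y * (deriv (deriv f) y ^ 2 + f y ^ 2) ∧
    (∫ y, w y * f y ^ 6) ≤ 8 * (∫ y, f y ^ 2) ^ 2 * ∫ y, w y * (deriv f y ^ 2 + f y ^ 2) ∧
    (∫ y, w y * (f y ^ 4 * deriv f y ^ 2)) ≤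
      32 * (∫ y, f y ^ 2) ^ 2 * ∫ y, w y * (deriv (deriv f) y ^ 2 + f y ^ 2) ∧
    (∫ y, w y * f y ^ 10) ≤
      256 * (∫ y, f y ^ 2) ^ 4 * ∫ y, w y * (deriv (deriv f) y ^ 2 + f y ^ 2)

end Pool.Agent.Helper41.KV
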