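import Pool.Agent.Helper41.KV.GoalsC
import Pool.Agent.Helper33.KV.DefsF

/-!
# Project KV (`MP_66be51_an`), section D: right field, approximate solution `W`, error estimate
-/

namespace Pool.Agent.Helper41.KV

open Real MeasureTheory Pool.Agent.Helper33.KV

/-- Smooth on `(0,∞)`, zero on `(-∞,0]` and `[1,∞)`, `k`-th derivative `O(x^{γ-k})`. -/
def IsS (γ : ℝ) (φ : ℝ → ℝ) : Prop :=
  ContDiffOn ℝ (⊤ : ℕ∞) φ (Set.Ioi 0) ∧ (∀ x, x ≤ 0 → φ x = 0) ∧ (∀ x, 1 ≤ x → φ x = 0) ∧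
    ∀ k : ℕ, ∃ C : ℝ, ∀ x : ℝ, 0 < x → |iteratedDeriv k φ x| ≤ C * x ^ (γ - k)

/-- The initial right field `χ(x) x^{α-1/2} Σ_{j<J} x^{2αj} p_j(log x)`. -/
noncomputable def fZero (α : ℝ) (p : ℕ → Polynomial ℝ) (J : ℕ) (x : ℝ) : ℝ :=
  if 0 < x then Real.smoothTransition (2 - 2 * x) *
    (x ^ (α - 1/2) * MvPolynomial.eval ![x ^ (2 * α), Real.log x] (gZero p J)) else 0

/-- Taylor polynomial in time of the gKdV evolution of `f0` (coefficients are functions of `x`). -/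
noncomputable def Fs (f0 : ℝ → ℝ) : ℕ → Polynomial (ℝ → ℝ)
  | 0 => Polynomial.C f0
  | (i + 1) => Fs f0 i + Polynomial.monomial (i + 1) (fun x => -(1 / ((i : ℝ) + 1)) *
      (iteratedDeriv 3 ((Fs f0 i).coeff i) x + deriv ((Fs f0 i ^ 5).coeff i) x))

/-- The right field `F(t,x) = Σ_{i ≤ n} t^i f_i(x)`. -/
noncomputable def FR (f0 : ℝ → ℝ) (n : ℕ) (t x : ℝ) : ℝ :=
  ∑ i ∈ Finset.range (n + 1), t ^ i * (Fs f0 n).coeff i x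

/-- Cut-off: `0` for `s ≤ -2`, `1` for `s ≥ -1`. -/
noncomputable def chL (s : ℝ) : ℝ := Real.smoothTransition (s + 2)

/-- Cut-off: `1` for `|x| ≤ 1/2`, `0` for `|x| ≥ 1`. -/
noncomputable def chO (x : ℝ) : ℝ :=
  Real.smoothTransition (2 - 2 * x) * Real.smoothTransition (2 + 2 * x)

/-- The approximate solution in inner variables. -/
noncomputable def vin (α θ : ℝ) (R P : ℝ → ℝ) (w : F3) (f0 : ℝ → ℝ) (n : ℕ) (t y : ℝ) : ℝ :=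
  chO (sig α t + lam α t * y) *
      (Q y + chL (rho α t ^ θ * y) * w (rho α t) (Real.log (sig α t)) y)
    + chL (rho α t ^ θ * y) * (Real.sqrt (lam α t) * FR f0 n t (sig α t + lam α t * y))
    + (chL (rho α t ^ ((1 : ℝ) / 2) * y) - chL (rho α t ^ θ * y)) *
        (rho α t * (kOne α + wOne α R P y))

/-- `Z_1 = (k_1 + w_1)/k_1`. -/
noncomputable def Zp (α : ℝ) (R P : ℝ → ℝ) (y : ℝ) : ℝ := (kOne α + wOne α R P y) / kOne α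

/-- The second order profile. -/
noncomputable def V2p (α c1 : ℝ) (ω2 : ℝ → ℝ) (y : ℝ) : ℝ := kOne α * (α - 1/2) * y + c1 + ω2 y

/-- All the data produced by section C. -/
structure Dat (α : ℝ) (J n : ℕ) (R P h0 h1 h2 h3 : ℝ → ℝ) (p : ℕ → Polynomial ℝ) (c1 a0 : ℝ)
    (ω2 ω3 : ℝ → ℝ) (e3 : Polynomial ℝ) (w : F3) : Prop where
  a_pos : 0 < α
  a_lt : α < 1
  rp : IsRP R P
  aux : IsAux α h0 h1 h2 h3
  J3 : 3 ≤ J
  nJ : J ≤ n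
  p0 : p 0 = Polynomial.C (kOne α)
  pz : ∀ j, J ≤ j → p j = 0
  tail2 : HasTail (Polynomial.C a0 - Polynomial.C (2 * kOne α * (α - 1/2)) * Polynomial.X) ω2
  eq2 : ∀ y, HasDerivAt (Lop (fun x => kOne α * (α - 1/2) * x + c1 + ω2 x))
        (2 * α * (kOne α + wOne α R P y)
          + deriv (fun y' => 10 * Q y' ^ 3 * (kOne α + wOne α R P y') ^ 2) y
          - (2 * α + 1) * Lam (fun x => kOne α + wOne α R P x) y) y
  wT : w ∈ MT 1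
  t3 : IsT ω3
  wexp : w - lif 1 (fun _ y => wOne α R P y) - lif 2 (fun _ y => ω2 y) - lif 3 (fun _ y => ω3 y)
    ∈ MT 4
  FP : Fh α h0 h1 h2 h3 n (gZero p J) ∈ MP 1
  Fexp : Fh α h0 h1 h2 h3 n (gZero p J) - lif 1 (fun _ _ => kOne α)
    - lif 2 (fun _ y => kOne α * (α - 1/2) * y + c1) - lif 3 (fun _ y => e3.eval y) ∈ MP 4
  br : Bk α (Fh α h0 h1 h2 h3 n (gZero p J)) w ∈ MT (J + 1)

/-- The residual in inner variables, in terms of the inner function `v`. -/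
noncomputable def resE (α : ℝ) (v : ℝ → ℝ → ℝ) (t y : ℝ) : ℝ :=
  lam α t ^ 3 * deriv (fun τ => v τ y) t
    + deriv (fun y' => deriv (deriv (v t)) y' - v t y' + v t y' ^ 5) y
    - (2 * α + 1) * rho α t * Lam (v t) y

/-- The error of the right field equation, in inner variables (`x > 0`). -/
noncomputable def resF (α : ℝ) (f0 : ℝ → ℝ) (n : ℕ) (t y : ℝ) : ℝ :=
  lam α t ^ 3 * (Real.sqrt (lam α t) *
    (deriv (fun τ => FR f0 n τ (sig α t + lam α t * y)) t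
      + iteratedDeriv 3 (FR f0 n t) (sig α t + lam α t * y)
      + deriv (fun x => FR f0 n t x ^ 5) (sig α t + lam α t * y)))

/-- `G = w + F̂ - ρ (k_1 + w_1)`, of order two. -/
noncomputable def Gg (α : ℝ) (h0 h1 h2 h3 : ℝ → ℝ) (n J : ℕ) (p : ℕ → Polynomial ℝ)
    (R P : ℝ → ℝ) (w : F3) : F3 := fun r l y =>
  w r l y + Fh α h0 h1 h2 h3 n (gZero p J) r l y - r * (kOne α + wOne α R P y)

/-- The right field in inner variables. -/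
noncomputable def Fhat (α : ℝ) (f0 : ℝ → ℝ) (n : ℕ) (t y : ℝ) : ℝ :=
  Real.sqrt (lam α t) * FR f0 n t (sig α t + lam α t * y)

/-- Pointwise bounds of `u = v - Q` (and of `v` far left). -/
structure UBd (α T C : ℝ) (v Fv : ℝ → ℝ → ℝ) : Prop where
  neg0 : ∀ t ∈ Set.Ioc 0 T, ∀ y ≤ 0, |v t y - Q y| ≤ C * rho α t
  negk : ∀ t ∈ Set.Ioc 0 T, ∀ y ≤ 0, ∀ k : ℕ, 1 ≤ k → k ≤ 5 →
    |iteratedDeriv k (v t) y - iteratedDeriv k Q y|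
      ≤ C * (rho α t * Real.exp (-|y| / 2) + rho α t ^ ((3 : ℝ) / 2))
  negy : ∀ t ∈ Set.Ioc 0 T, ∀ y ≤ 0, ∀ k : ℕ, 1 ≤ k → k ≤ 2 →
    |y| * |iteratedDeriv k (v t) y - iteratedDeriv k Q y| ≤ C * rho α t
  negt : ∀ t ∈ Set.Ioc 0 T, ∀ y ≤ 0,
    lam α t ^ 3 * |deriv (fun τ => v τ y) t| ≤ C * rho α t ^ ((7 : ℝ) / 4) ∧
    lam α t ^ 3 * |deriv (fun y' => deriv (fun τ => v τ y') t) y| ≤ C * rho α t ^ ((7 : ℝ) / 4)
  posk : ∀ t ∈ Set.Ioc 0 T, ∀ y, 0 ≤ y → ∀ k ≤ 5,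
    |iteratedDeriv k (v t) y - iteratedDeriv k Q y - iteratedDeriv k (Fv t) y|
      ≤ C * rho α t ^ ((7 : ℝ) / 8) * Real.exp (-y / 2)
  post : ∀ t ∈ Set.Ioc 0 T, ∀ y, 0 ≤ y →
    lam α t ^ 3 * |deriv (fun τ => v τ y) t - deriv (fun τ => Fv τ y) t|
      ≤ C * rho α t ^ ((7 : ℝ) / 4) * Real.exp (-y / 2) ∧
    lam α t ^ 3 * |deriv (fun y' => deriv (fun τ => v τ y') t) y
        - deriv (fun y' => deriv (fun τ => Fv τ y') t) y|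
      ≤ C * rho α t ^ ((7 : ℝ) / 4) * Real.exp (-y / 2)
  tail : ∀ t ∈ Set.Ioc 0 T, ∀ y, y ≤ -(2 * rho α t ^ (-((1 : ℝ) / 2))) →
    (∀ k ≤ 5, |iteratedDeriv k (v t) y| ≤ C * Real.exp (-(3 / 4 * |y|))) ∧
    lam α t ^ 3 * |deriv (fun τ => v τ y) t| ≤ C * Real.exp (-(3 / 4 * |y|)) ∧
    lam α t ^ 3 * |deriv (fun y' => deriv (fun τ => v τ y') t) y|
      ≤ C * Real.exp (-(3 / 4 * |y|))

/-- Additional facts on `W`, part 1 (left side, limit). -/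
structure BgL (α T C : ℝ) (f0 : ℝ → ℝ) (W Wt : ℝ → ℝ → ℝ) : Prop where
  resLi : ∀ t ∈ Set.Ioc 0 T,
    Integrable (fun y => resid α W Wt t y ^ 2 + deriv (resid α W Wt t) y ^ 2)
  resL : ∀ t ∈ Set.Ioc 0 T,
    (∫ y, (resid α W Wt t y ^ 2 + deriv (resid α W Wt t) y ^ 2)) ≤ C * rho α t ^ ((5 : ℝ) / 2)
  b0L : ∀ t ∈ Set.Ioc 0 T, ∀ y, y ≤ 0 → |inn α W t y - Q y| ≤ C * rho α t
  tailL : ∀ t ∈ Set.Ioc 0 T, ∀ y, y ≤ -1 / (2 * rho α t) → ∀ k ≤ 4,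
    |iteratedDeriv k (inn α W t) y| ≤ C * Real.exp (-|y| / 2)
  f0L2 : MemLp f0 2
  f0S : IsS (α/2 - 1/2) f0
  conv : ∀ t ∈ Set.Ioc 0 T, Integrable (fun x => (W t x - outr α (fun _ => Q) t x - f0 x) ^ 2) ∧
    (∫ x, (W t x - outr α (fun _ => Q) t x - f0 x) ^ 2) ≤ C * rho α t ^ ((1 : ℝ) / 2)

/-- Additional facts on `W`, part 2 (absolute constants; `M` bounds `Z`). -/
structure BgY (α K T C M : ℝ) (W Wt : ℝ → ℝ → ℝ) : Prop where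
  d0 : ∀ t ∈ Set.Ioc 0 T, ∀ y, |inn α W t y - Q y| ≤ rho α t ^ ((1 : ℝ) / 2)
  d1 : ∀ t ∈ Set.Ioc 0 T, ∀ y,
    (1 + |y|) * |deriv (fun y' => inn α W t y' - Q y') y| ≤ rho α t ^ ((1 : ℝ) / 2)
  d2 : ∀ t ∈ Set.Ioc 0 T, ∀ y,
    |iteratedDeriv 2 (fun y' => inn α W t y' - Q y') y| ≤ rho α t ^ ((1 : ℝ) / 2)
  dt : ∀ t ∈ Set.Ioc 0 T, ∀ y, lam α t ^ 3 *
      |derivWithin (fun τ => inn α W τ y) (Set.Ioc 0 T) t| ≤ rho α t ^ ((5 : ℝ) / 4)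
  dexp : ∀ t ∈ Set.Ioc 0 T, ∀ y, |inn α W t y - Q y| ≤
    (1 + kap α * M) * rho α t * Real.exp (|y| / 8)
  lft : ∀ t ∈ Set.Ioc 0 T,
    Integrable (fun y => (1 - wt K (rho α t) y) ^ 2 * (inn α W t y ^ 2
      + deriv (inn α W t) y ^ 2 + iteratedDeriv 2 (inn α W t) y ^ 2)) ∧
    (∫ y, (1 - wt K (rho α t) y) ^ 2 * (inn α W t y ^ 2
      + deriv (inn α W t) y ^ 2 + iteratedDeriv 2 (inn α W t) y ^ 2)) ≤ C * rho α t ^ ((3 : ℝ) / 2)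
  rsup : ∀ t ∈ Set.Ioc 0 T, ∀ y, |resid α W Wt t y| ≤ rho α t
  mass : ∀ ε : ℝ, 0 < ε → ∃ T' : ℝ, 0 < T' ∧ ∀ t ∈ Set.Ioc 0 T', ∀ s ∈ Set.Ioc 0 T',
    |(∫ x, W t x ^ 2) - ∫ x, W s x ^ 2| ≤ ε

end Pool.Agent.Helper41.KV
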