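import Mathlib

/-!
# Project KV (`MP_66be51_an`): basic definitions for the spectral section E

`Q(x) = (3 sech^2(2x))^{1/4}`, the linearised operator `L = -d^2 + 1 - 5 Q^4`, the classes
`IsE` (smooth, every derivative `O(e^{-mu |y|})` for every `mu < 1`), `IsP` (smooth, every
derivative polynomially bounded) and `IsW` (smooth, every derivative polynomially bounded on the
left and exponentially decaying on the right).
-/

namespace Pool.Agent.Helper41.KV

open Real MeasureTheory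

/-- The soliton profile of the problem file. -/
noncomputable def Q (x : ℝ) : ℝ := (3 / (Real.cosh (2 * x)) ^ 2) ^ ((1 : ℝ) / 4)

/-- Scaling generator. -/
noncomputable def Lam (f : ℝ → ℝ) (y : ℝ) : ℝ := f y / 2 + y * deriv f y

/-- The linearised operator `L f = - f'' + f - 5 Q^4 f`. -/
noncomputable def Lop (f : ℝ → ℝ) (y : ℝ) : ℝ :=
  - deriv (deriv f) y + f y - 5 * Q y ^ 4 * f y

/-- Smooth, all derivatives `O(e^{-mu|y|})` for every `mu < 1`. -/
def IsE (f : ℝ → ℝ) : Prop :=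
  ContDiff ℝ (⊤ : ℕ∞) f ∧
    ∀ k : ℕ, ∀ μ : ℝ, μ < 1 → ∃ C : ℝ, ∀ y : ℝ, |iteratedDeriv k f y| ≤ C * Real.exp (-(μ * |y|))

/-- Smooth, all derivatives polynomially bounded. -/
def IsP (f : ℝ → ℝ) : Prop :=
  ContDiff ℝ (⊤ : ℕ∞) f ∧
    ∀ k : ℕ, ∃ n : ℕ, ∃ C : ℝ, ∀ y : ℝ, |iteratedDeriv k f y| ≤ C * (1 + |y|) ^ n

/-- Smooth, all derivatives polynomially bounded, and `O(e^{-mu y})` for `y ≥ 0`, every `mu < 1`. -/
def IsW (f : ℝ → ℝ) : Prop :=
  IsP f ∧
    ∀ k : ℕ, ∀ μ : ℝ, μ < 1 → ∃ C : ℝ, ∀ y : ℝ, 0 ≤ y → |iteratedDeriv k f y| ≤ C * Real.exp (-(μ * y))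

/-- The logistic weight. -/
noncomputable def wt (K ρ y : ℝ) : ℝ := 1 / (1 + ρ * Real.exp (-(y / K)))

end Pool.Agent.Helper41.KV
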