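import Pool.Agent.Helper41.KV.GoalsE

/-!
# Project KV (`MP_66be51_an`), section C: inner expansion on the exact reference curve

Functions of `(ρ, ℓ, y)` (`F3`), the graded classes `MT m` (coefficients with polynomial left tail and
exponential decay on the right) and `MP m` (polynomial coefficients), the operators `dY`, `Dop`
(`D = 2α ρ ∂_ρ + ∂_ℓ`), the bracket `Bk`, and the power series (in `τ = t/x^3`) of the right field.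
-/

namespace Pool.Agent.Helper41.KV

open Real MeasureTheory

/-- Functions of `(ρ, ℓ, y)`. -/
abbrev F3 := ℝ → ℝ → ℝ → ℝ

/-- Smooth with all derivatives bounded. -/
def IsH (h : ℝ → ℝ) : Prop :=
  ContDiff ℝ (⊤ : ℕ∞) h ∧ ∀ k : ℕ, ∃ C : ℝ, ∀ z : ℝ, |iteratedDeriv k h z| ≤ C

/-- Exact polynomial left tail, exponential decay on the right. -/
def IsT (a : ℝ → ℝ) : Prop := ∃ q : Polynomial ℝ, HasTail q a

/-- `ρ^k ℓ^n a(y) h(ρ y)`. -/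
def mono (k n : ℕ) (a h : ℝ → ℝ) : F3 := fun r l y => r ^ k * l ^ n * a y * h (r * y)

/-- Finite sums of `ρ^k ℓ^n a(y) h(ρ y)`, `k ≥ m`, `a` with tail. -/
def MT (m : ℕ) : Submodule ℝ F3 :=
  Submodule.span ℝ {Φ | ∃ (k n : ℕ) (a h : ℝ → ℝ), m ≤ k ∧ IsT a ∧ IsH h ∧ Φ = mono k n a h}

/-- Finite sums of `ρ^k ℓ^n y^i h(ρ y)`, `k ≥ m`. -/
def MP (m : ℕ) : Submodule ℝ F3 :=
  Submodule.span ℝ {Φ | ∃ (k n i : ℕ) (h : ℝ → ℝ), m ≤ k ∧ IsH h ∧ Φ = mono k n (fun y => y ^ i) h}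

/-- Finite sums of `ℓ^n a(y)`, `a` with tail. -/
def LT : Submodule ℝ (ℝ → ℝ → ℝ) :=
  Submodule.span ℝ {e | ∃ (n : ℕ) (a : ℝ → ℝ), IsT a ∧ e = fun l y => l ^ n * a y}

/-- Polynomials in `(ℓ, y)`. -/
def LP : Submodule ℝ (ℝ → ℝ → ℝ) :=
  Submodule.span ℝ {e | ∃ (n i : ℕ), e = fun l y => l ^ n * y ^ i}

/-- `ρ^m e(ℓ,y)`. -/
def lif (m : ℕ) (e : ℝ → ℝ → ℝ) : F3 := fun r l y => r ^ m * e l y

/-- `∂_y`. -/
noncomputable def dY (Φ : F3) : F3 := fun r l y => deriv (fun y' => Φ r l y') y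

/-- `D = 2α ρ ∂_ρ + ∂_ℓ` (at fixed `y`). On the reference curve `d/ds Φ(ρ,ℓ,y) = ρ (DΦ)(ρ,ℓ,y)`. -/
noncomputable def Dop (α : ℝ) (Φ : F3) : F3 := fun r l y =>
  2 * α * r * deriv (fun r' => Φ r' l y) r + deriv (fun l' => Φ r l' y) l

/-- The bracket: for `v = Q + F + w`,
`E(v) = ρ D v + (v_yy - v + v^5)_y - (2α+1) ρ Λ v = [same for F] + Bk α F w`. -/
noncomputable def Bk (α : ℝ) (F w : F3) : F3 := fun r l y =>
  r * Dop α w r l y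
    + deriv (fun y' => dY (dY w) r l y' - w r l y'
        + ((Q y' + F r l y' + w r l y') ^ 5 - F r l y' ^ 5 - Q y' ^ 5)) y
    - (2 * α + 1) * r * (Lam Q y + (w r l y / 2 + y * dY w r l y))

/-- `k_1 = (2α+1) (∫Q) / 4`. -/
noncomputable def kOne (α : ℝ) : ℝ := (2 * α + 1) * (∫ y, Q y) / 4

/-- The defining properties of the profiles `R` and `P` (conclusion of `S_PR`). -/
structure IsRP (R P : ℝ → ℝ) : Prop where
  R_E : IsE R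
  R_even : ∀ y, R (-y) = R y
  R_eq : ∀ y, Lop (fun x => 1 + R x) y = 1
  R_int : (∫ y, (1 + R y) * Q y) = (∫ y, Q y) / 4
  P_tail : HasTail (Polynomial.C ((∫ y, Q y) / 2)) P
  P_eq : ∀ y, HasDerivAt (Lop P) (Lam Q y) y
  P_lop : IsE (fun y => Lop P y - ((∫ y, Q y) / 2) * chiM y)
  P_int : (∫ y, P y * Q y) = (∫ y, Q y) ^ 2 / 16
  LQ : ∀ y, Lop (Lam Q) y = -2 * Q y

/-- `w_1 = k_1 R - (2α+1) P`; then `k_1 + w_1 = k_1 Z_1`. -/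
noncomputable def wOne (α : ℝ) (R P : ℝ → ℝ) (y : ℝ) : ℝ := kOne α * R y - (2 * α + 1) * P y

/-! ### The right field as a polynomial in `τ = t/x^3`, `ξ = x^{2α}`, `ℓ = log x` -/

/-- Polynomials in `ξ = X 0` and `ℓ = X 1`. -/
abbrev XL := MvPolynomial (Fin 2) ℝ

/-- The derivation `δ = 2α ξ ∂_ξ + ∂_ℓ` of `XL`: `x d/dx` of `g(x^{2α}, log x)` is `(δ g)(x^{2α}, log x)`. -/
noncomputable def delt (α : ℝ) : Derivation ℝ XL XL :=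
  MvPolynomial.mkDerivation ℝ ![MvPolynomial.C (2 * α) * MvPolynomial.X 0, 1]

/-- Coefficient of `x^{β-1}` in `(x^β g)'`: `(β + δ) g`. -/
noncomputable def bd (α β : ℝ) (g : XL) : XL := MvPolynomial.C β * g + delt α g

/-- The polynomial `Φ_n(τ) = Σ_{i ≤ n} τ^i g_i` with `g_{i+1} = -(1/(i+1)) ( (β_i-2+δ)(β_i-1+δ)(β_i+δ) g_i
+ ξ^2 (γ_i + δ) [τ^i] Φ_i^5 )`, `β_i = α-1/2-3i`, `γ_i = 5(α-1/2)-3i`. -/
noncomputable def Phi (α : ℝ) (g0 : XL) : ℕ → Polynomial XL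
  | 0 => Polynomial.C g0
  | (i + 1) => Phi α g0 i + Polynomial.monomial (i + 1)
      (MvPolynomial.C (-(1 / ((i : ℝ) + 1))) *
        (bd α (α - 1/2 - 3 * i - 2) (bd α (α - 1/2 - 3 * i - 1) (bd α (α - 1/2 - 3 * i)
            ((Phi α g0 i).coeff i)))
          + MvPolynomial.X 0 ^ 2 * bd α (5 * (α - 1/2) - 3 * i) ((Phi α g0 i ^ 5).coeff i)))

/-- `g_0 = Σ_{j < J} ξ^j p_j(ℓ)`. -/
noncomputable def gZero (p : ℕ → Polynomial ℝ) (J : ℕ) : XL :=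
  ∑ j ∈ Finset.range J, MvPolynomial.X 0 ^ j * Polynomial.aeval (MvPolynomial.X 1) (p j)

/-- The right field in inner variables, as a function of `(ρ,ℓ,y)`:
`ρ h_0(ρy) Φ_n(ρ^2 h_1(ρy)/(4α+3); ρ h_2(ρy), ℓ + h_3(ρy))`, where on `|z| ≤ 1/2`
`h_0 = (1+z)^{α-1/2}`, `h_1 = (1+z)^{-3}`, `h_2 = (1+z)^{2α}`, `h_3 = log(1+z)`. -/
noncomputable def Fh (α : ℝ) (h0 h1 h2 h3 : ℝ → ℝ) (n : ℕ) (g0 : XL) : F3 := fun r l y =>
  r * h0 (r * y) *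
    Polynomial.eval (r ^ 2 * h1 (r * y) / (4 * α + 3))
      ((Phi α g0 n).map (MvPolynomial.eval ![r * h2 (r * y), l + h3 (r * y)]))

/-- The four auxiliary functions. -/
structure IsAux (α : ℝ) (h0 h1 h2 h3 : ℝ → ℝ) : Prop where
  H0 : IsH h0
  H1 : IsH h1
  H2 : IsH h2
  H3 : IsH h3
  e0 : ∀ z, |z| ≤ 1/2 → h0 z = (1 + z) ^ (α - 1/2)
  e1 : ∀ z, |z| ≤ 1/2 → h1 z = (1 + z) ^ (-3 : ℝ)
  e2 : ∀ z, |z| ≤ 1/2 → h2 z = (1 + z) ^ (2 * α)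
  e3 : ∀ z, |z| ≤ 1/2 → h3 z = Real.log (1 + z)

end Pool.Agent.Helper41.KV
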