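import Pool.Agent.Helper41.KV.GoalsD
import Pool.Agent.Helper33.KV.GoalsC2

/-!
# Project KV (`MP_66be51_an`), assembly of sections C, D: `S_FINW` from the packets
-/

namespace Pool.Agent.Helper41.KV

open Real MeasureTheory Pool.Agent.Helper33.KV

namespace FinA

/-- partial time derivative of a jointly smooth function is smooth in `y`. -/
theorem smooth_dt {v : ℝ → ℝ → ℝ} {T1 t : ℝ} (ht : t ∈ Set.Ioo 0 T1)
    (hv : ContDiffOn ℝ (⊤ : ℕ∞) (fun q : ℝ × ℝ => v q.1 q.2) (Set.Ioo 0 T1 ×ˢ Set.univ)) :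
    ContDiff ℝ (⊤ : ℕ∞) (fun y => deriv (fun τ => v τ y) t) ∧
      ContDiff ℝ (⊤ : ℕ∞) (v t) ∧ ∀ y, DifferentiableAt ℝ (fun τ => v τ y) t := by
  have hopen : IsOpen (Set.Ioo 0 T1 ×ˢ (Set.univ : Set ℝ)) := isOpen_Ioo.prod isOpen_univ
  set S : Set (ℝ × ℝ) := Set.Ioo 0 T1 ×ˢ (Set.univ : Set ℝ) with hS
  have hmem : ∀ y : ℝ, (t, y) ∈ S := fun y => ⟨ht, Set.mem_univ _⟩
  have hfd : ContDiffOn ℝ (⊤ : ℕ∞) (fderiv ℝ (fun q : ℝ × ℝ => v q.1 q.2)) S :=
    hv.fderiv_of_isOpen hopen (by simp)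
  have hat : ∀ y : ℝ, DifferentiableAt ℝ (fun q : ℝ × ℝ => v q.1 q.2) (t, y) := fun y =>
    ((hv.contDiffAt (hopen.mem_nhds (hmem y))).differentiableAt (by simp))
  have hline : ContDiff ℝ (⊤ : ℕ∞) (fun y : ℝ => ((t, y) : ℝ × ℝ)) :=
    contDiff_const.prodMk contDiff_id
  have h1 : ∀ y, HasDerivAt (fun τ => v τ y)
      (fderiv ℝ (fun q : ℝ × ℝ => v q.1 q.2) (t, y) (1, 0)) t := by
    intro y
    have hc : HasDerivAt (fun τ : ℝ => ((τ, y) : ℝ × ℝ)) (1, 0) t :=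
      (hasDerivAt_id t).prodMk (hasDerivAt_const t y)
    exact (hat y).hasFDerivAt.comp_hasDerivAt t hc
  refine ⟨?_, ?_, fun y => (h1 y).differentiableAt⟩
  · have he : (fun y => deriv (fun τ => v τ y) t)
        = fun y => fderiv ℝ (fun q : ℝ × ℝ => v q.1 q.2) (t, y) (1, 0) := by
      funext y; exact (h1 y).deriv
    rw [he]
    have h2 : ContDiff ℝ (⊤ : ℕ∞) (fun y => fderiv ℝ (fun q : ℝ × ℝ => v q.1 q.2) (t, y)) := by
      rw [← contDiffOn_univ]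
      exact hfd.comp hline.contDiffOn (fun y _ => hmem y)
    exact h2.clm_apply contDiff_const
  · rw [← contDiffOn_univ]
    exact hv.comp hline.contDiffOn (fun y _ => hmem y)

theorem contDiff_deriv {f : ℝ → ℝ} (hf : ContDiff ℝ (⊤ : ℕ∞) f) :
    ContDiff ℝ (⊤ : ℕ∞) (deriv f) := by
  have h := hf
  rw [show ((⊤ : ℕ∞) : WithTop ℕ∞) = ((⊤ : ℕ∞) : WithTop ℕ∞) + 1 from rfl] at h
  exact (contDiff_succ_iff_deriv.mp h).2.2

/-- `resE` is smooth in `y`. -/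
theorem smooth_resE {α : ℝ} {v : ℝ → ℝ → ℝ} {T1 t : ℝ} (ht : t ∈ Set.Ioo 0 T1)
    (hv : ContDiffOn ℝ (⊤ : ℕ∞) (fun q : ℝ × ℝ => v q.1 q.2) (Set.Ioo 0 T1 ×ˢ Set.univ)) :
    ContDiff ℝ (⊤ : ℕ∞) (resE α v t) := by
  obtain ⟨h1, h2, -⟩ := smooth_dt ht hv
  have d1 := contDiff_deriv h2
  have d2 := contDiff_deriv d1
  have e1 : ContDiff ℝ (⊤ : ℕ∞) (fun y' => deriv (deriv (v t)) y' - v t y' + v t y' ^ 5) :=
    (d2.sub h2).add (h2.pow 5)
  have e2 := contDiff_deriv e1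
  have e3 : ContDiff ℝ (⊤ : ℕ∞) (Lam (v t)) := by
    have : Lam (v t) = fun y => v t y / 2 + y * deriv (v t) y := by
      funext y; rfl
    rw [this]
    exact (h2.div_const 2).add (contDiff_id.mul d1)
  have : resE α v t = fun y => lam α t ^ 3 * deriv (fun τ => v τ y) t
    + deriv (fun y' => deriv (deriv (v t)) y' - v t y' + v t y' ^ 5) y
    - (2 * α + 1) * rho α t * Lam (v t) y := by
    funext y; rfl
  rw [this]
  exact ((contDiff_const.mul h1).add e2).sub (contDiff_const.mul e3)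

theorem UBd.mono {α T T' C : ℝ} {v Fv : ℝ → ℝ → ℝ} (h : UBd α T C v Fv) (hT : T' ≤ T) :
    UBd α T' C v Fv where
  neg0 := fun t ht => h.neg0 t ⟨ht.1, ht.2.trans hT⟩
  negk := fun t ht => h.negk t ⟨ht.1, ht.2.trans hT⟩
  negy := fun t ht => h.negy t ⟨ht.1, ht.2.trans hT⟩
  negt := fun t ht => h.negt t ⟨ht.1, ht.2.trans hT⟩
  posk := fun t ht => h.posk t ⟨ht.1, ht.2.trans hT⟩
  post := fun t ht => h.post t ⟨ht.1, ht.2.trans hT⟩
  tail := fun t ht => h.tail t ⟨ht.1, ht.2.trans hT⟩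

theorem mass_aux (CL : ℝ) {ε : ℝ} (hε : 0 < ε) : ∃ δ : ℝ, 0 < δ ∧ ∀ a b : ℝ, 0 ≤ a → 0 ≤ b →
    a ≤ δ → b ≤ δ → CL * (a + b) ^ ((1 : ℝ) / 2) ≤ ε := by
  refine ⟨(ε / (|CL| + 1)) ^ 2 / 2, by positivity, fun a b ha hb ha' hb' => ?_⟩
  have hpos : 0 ≤ ε / (|CL| + 1) := by positivity
  have hsq : (a + b) ^ ((1 : ℝ) / 2) ≤ ε / (|CL| + 1) := by
    rw [← Real.sqrt_eq_rpow]
    rw [← Real.sqrt_sq hpos]
    exact Real.sqrt_le_sqrt (by linarith)
  have h0' : 0 ≤ (a + b) ^ ((1 : ℝ) / 2) := Real.rpow_nonneg (by linarith) _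
  have e1 : CL * (a + b) ^ ((1 : ℝ) / 2) ≤ |CL| * (a + b) ^ ((1 : ℝ) / 2) :=
    mul_le_mul_of_nonneg_right (le_abs_self _) h0'
  have e2 : |CL| * (a + b) ^ ((1 : ℝ) / 2) ≤ |CL| * (ε / (|CL| + 1)) :=
    mul_le_mul_of_nonneg_left hsq (abs_nonneg _)
  have e3 : |CL| * (ε / (|CL| + 1)) ≤ ε := by
    rw [mul_div_assoc', div_le_iff₀ (by positivity)]
    nlinarith [abs_nonneg CL]
  linarith

end FinA

open FinA

/-- **Assembly of sections C, D.** -/
theorem thm_FINW (hPR : S_PR) (hD : Pool.Agent.Helper33.KV.S_DATU) (hC : S_CURV) (hFZ : S_FZ)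
    (hFZ2 : S_FZ2) (hS : S_SMW) (hHC : S_HC) (hCHN : S_CHN) (hUB : S_UB) (hBF : S_BF)
    (hRB : S_RB) (hRESP : S_RESP) (hRESI : S_RESI) (hL2C : S_L2C) (hZV : S_ZV) : S_FINW := by
  obtain ⟨hLQ, R, P, r1, r2, r3, r4, r5, r6, r7, r8⟩ := hPR
  have hRP : IsRP R P := ⟨r1, r2, r3, r4, r5, r6, r7, r8, hLQ⟩
  refine ⟨R, P, hRP, fun α ha0 ha1 => ?_⟩
  obtain ⟨-, hk1, hZ1, hZf, ⟨M, hM⟩, hV⟩ := hZV R P hRP α ha0 ha1
  obtain ⟨h0, h1, h2, h3, c1, a0, ω2, ω3, e3, -, hT3, hdat⟩ := hD α R P ha0 ha1 hRP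
  obtain ⟨p3, w3, hd3⟩ := hdat 3 3 le_rfl le_rfl
  have hV2 := hV 3 3 h0 h1 h2 h3 p3 c1 a0 ω2 ω3 e3 w3 hd3
  obtain ⟨CuB, hBF1⟩ := hBF
  obtain ⟨CuR, hRB1⟩ := hRB α ω3 e3 hT3
  obtain ⟨hcurv, hsS, hsL, hsR, hsmall, -⟩ := hC α ha0 ha1
  set C : ℝ := max (max CuB CuR) 1 with hCdef
  have hC1 : (1 : ℝ) ≤ C := le_max_right _ _
  have hCB : CuB ≤ C := (le_max_left _ _).trans (le_max_left _ _)
  have hCR : CuR ≤ C := (le_max_right _ _).trans (le_max_left _ _)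
  refine ⟨hZ1, hZf, M, C, V2p α c1 ω2, hM, hV2, fun N0 K hK => ?_⟩
  obtain ⟨p, w, hd⟩ := hdat (N0 + 4) (N0 + 4) (by omega) le_rfl
  set J : ℕ := N0 + 4 with hJ
  have hf0 : IsS (α/2 - 1/2) (fZero α p J) := hFZ α p J ha0 ha1
  obtain ⟨C1, hC1'⟩ := hFZ2 α (kOne α) p J ha0 ha1 hd.p0
  obtain ⟨n1, hRESP1⟩ := hRESP α J J R P h0 h1 h2 h3 p c1 a0 ω2 ω3 e3 w hd
  obtain ⟨θ0, hθ0, hθ0', hUB1⟩ := hUB α J J R P h0 h1 h2 h3 p c1 a0 ω2 ω3 e3 w hd
  set θ : ℝ := min θ0 (1 / (8 * ((n1 : ℝ) + 1))) with hθdef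
  have hn1 : (0 : ℝ) ≤ (n1 : ℝ) := Nat.cast_nonneg _
  have hθpos : 0 < θ := lt_min hθ0 (by positivity)
  have hθle : θ ≤ θ0 := min_le_left _ _
  have hθle2 : θ ≤ 1 / (8 * ((n1 : ℝ) + 1)) := min_le_right _ _
  have hθ8 : θ ≤ 1 / 8 := by
    refine hθle2.trans ?_
    rw [div_le_div_iff₀ (by positivity) (by norm_num)]
    nlinarith
  have hθn : θ * n1 ≤ 1 / 8 := by
    have : θ * n1 ≤ 1 / (8 * ((n1 : ℝ) + 1)) * n1 := mul_le_mul_of_nonneg_right hθle2 hn1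
    refine this.trans ?_
    rw [div_mul_eq_mul_div, one_mul, div_le_div_iff₀ (by positivity) (by norm_num)]
    nlinarith
  have hθ4 : θ < 1 / 4 := lt_of_le_of_lt hθle hθ0'
  obtain ⟨TU, CU, hTU, hU⟩ := hUB1 θ hθpos hθle
  obtain ⟨T1, hT1, -, hsm, hsup⟩ := hS α J J R P h0 h1 h2 h3 p c1 a0 ω2 ω3 e3 w hd θ hθpos
    (by linarith)
  set T0 : ℝ := min TU (T1 / 2) with hT0def
  have hT0 : 0 < T0 := lt_min hTU (by linarith)
  have hT01 : T0 < T1 := lt_of_le_of_lt (min_le_right _ _) (by linarith)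
  have hU' : UBd α T0 CU (vin α θ R P w (fZero α p J) J) (Fhat α (fZero α p J) J) :=
    FinA.UBd.mono hU (min_le_left _ _)
  obtain ⟨TB, CB, hTB, hTB0, hBF2⟩ := hBF1 α K T0 CU T1 _ (fZero α p J) J ha0 ha1 hK hf0 hT0 hT01
    hsm hU'
  obtain ⟨TR, hTR, hTR0, hRB2⟩ := hRB1 J J R P h0 h1 h2 h3 p c1 a0 ω2 w M hd hM θ hθpos hθ4 T0 CU
    hT0 hU'
  obtain ⟨TP, CP, hTP, hTP0, hRESP2⟩ := hRESP1 θ hθpos hθ4 T0 CU hT0 hU'
  obtain ⟨TI, CI, hTI, hRESI2⟩ := hRESI α K θ CP J J N0 n1 ha0 ha1 (by linarith) hθpos hθ8 hθn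
    (by omega) (by omega) le_rfl
  obtain ⟨hL2, TL, CL, hTL, hTL0, hconv, hmass⟩ := hL2C α T0 CU C1 T1 _ (fZero α p J) J ha0 ha1
    hf0 hC1' hT0 hT01 hsm hsup hU'
  clear hU' hU hL2C hUB hUB1 hV hd hC1' hS hZV hD hBF1 hRB1 hRB hRESP1 hRESP hRESI hFZ hFZ2 hdat
  generalize vin α θ R P w (fZero α p J) J = v at *
  generalize fZero α p J = f0 at *
  obtain ⟨TS, hTS, hsm1⟩ := hsmall 1 one_pos
  set T : ℝ := min (min (min TB TR) (min TP TI)) (min TL TS) with hTdef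
  have hTpos : 0 < T := lt_min (lt_min (lt_min hTB hTR) (lt_min hTP hTI)) (lt_min hTL hTS)
  have lTB : T ≤ TB := (min_le_left _ _).trans ((min_le_left _ _).trans (min_le_left _ _))
  have lTR : T ≤ TR := (min_le_left _ _).trans ((min_le_left _ _).trans (min_le_right _ _))
  have lTP : T ≤ TP := (min_le_left _ _).trans ((min_le_right _ _).trans (min_le_left _ _))
  have lTI : T ≤ TI := (min_le_left _ _).trans ((min_le_right _ _).trans (min_le_right _ _))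
  have lTL : T ≤ TL := (min_le_right _ _).trans (min_le_left _ _)
  have lTS : T ≤ TS := (min_le_right _ _).trans (min_le_right _ _)
  set r : ℝ → ℝ → ℝ := fun t y => (v t y - Q y
    - rho α t * kap α * Zp α R P y - rho α t ^ 2 * V2p α c1 ω2 y) / rho α t ^ 3 with hrdef
  set C2 : ℝ := max (max (max CI CB) (max CL 0)) 0 with hC2def
  have hCI : CI ≤ C2 := (le_max_left _ _).trans ((le_max_left _ _).trans (le_max_left _ _))
  have hCB2 : CB ≤ C2 := (le_max_right _ _).trans ((le_max_left _ _).trans (le_max_left _ _))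
  have hCL2 : CL ≤ C2 := (le_max_left _ _).trans ((le_max_right _ _).trans (le_max_left _ _))
  have hC20 : 0 ≤ C2 := le_max_right _ _
  refine ⟨T, C2, f0, outr α v, fun t x => deriv (fun τ => outr α v τ x) t, r,
    fun t y => deriv (fun τ => r τ y) t, hTpos, fun T' hT'0 hT' => ?_⟩
  -- basic facts at time t ∈ (0, T']
  have hb : ∀ t ∈ Set.Ioc 0 T', t ∈ Set.Ioo 0 T1 ∧ t ∈ Set.Ioc 0 T ∧ 0 < rho α t ∧
      rho α t ≤ 1 := by
    intro t ht
    have h1' : t ∈ Set.Ioc 0 T := ⟨ht.1, ht.2.trans hT'⟩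
    refine ⟨⟨ht.1, ?_⟩, h1', (hcurv t ht.1).2.2.1, (hsm1 t ht.1 (h1'.2.trans lTS)).2.2.le⟩
    exact lt_of_le_of_lt (h1'.2.trans (lTB.trans hTB0)) hT01
  have hinn : ∀ t ∈ Set.Ioc 0 T', inn α (outr α v) t = v t := by
    intro t ht
    funext y
    exact (hCHN α v T1 ha0 ha1 hT1 hsm t (hb t ht).1 y).1
  have hresid : ∀ t ∈ Set.Ioc 0 T',
      resid α (outr α v) (fun t x => deriv (fun τ => outr α v τ x) t) t = resE α v t := by
    intro t ht
    funext y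
    exact (hCHN α v T1 ha0 ha1 hT1 hsm t (hb t ht).1 y).2.1
  have hdw : ∀ t ∈ Set.Ioc 0 T', ∀ y,
      derivWithin (fun τ => inn α (outr α v) τ y) (Set.Ioc 0 T') t
        = derivWithin (fun τ => v τ y) (Set.Ioc 0 T') t := by
    intro t ht y
    refine derivWithin_congr (fun τ hτ => ?_) ?_
    · show inn α (outr α v) τ y = v τ y
      rw [hinn τ hτ]
    · show inn α (outr α v) t y = v t y
      rw [hinn t ht]
  have hI : ∀ t ∈ Set.Ioc 0 T', (∫ y, wt K (rho α t) y *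
        (resE α v t y ^ 2 + deriv (resE α v t) y ^ 2)) ≤ rho α t ^ (2 * N0) ∧
      Integrable (fun y => resE α v t y ^ 2 + deriv (resE α v t) y ^ 2) ∧
      (∫ y, (resE α v t y ^ 2 + deriv (resE α v t) y ^ 2)) ≤ CI * rho α t ^ ((5 : ℝ) / 2) ∧
      (∀ y, |resE α v t y| ≤ rho α t ^ ((5 : ℝ) / 4)) := by
    intro t ht
    have h1' := (hb t ht).2.1
    have m1 : t ∈ Set.Ioc 0 TI := ⟨ht.1, h1'.2.trans lTI⟩
    have m2 : t ∈ Set.Ioc 0 TP := ⟨ht.1, h1'.2.trans lTP⟩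
    have m3 := hRESP2 t m2
    exact hRESI2 t m1 (resE α v t) (smooth_resE (hb t ht).1 hsm) m3
  have hBt := fun (t : ℝ) (ht : t ∈ Set.Ioc 0 T') =>
    hBF2 t (show t ∈ Set.Ioc 0 TB from ⟨ht.1, (hb t ht).2.1.2.trans lTB⟩) T' ht.2
      (hT'.trans lTB)
  have hRt : ∀ t ∈ Set.Ioc 0 T', ContDiff ℝ (⊤ : ℕ∞) (r t) ∧
      (∀ k ≤ 4, ∀ y, |iteratedDeriv k (r t) y| ≤ CuR * Real.exp (|y| / 64)) ∧
      (∀ y, DifferentiableAt ℝ (fun τ => r τ y) t ∧ |deriv (fun τ => r τ y) t|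
        ≤ CuR * (rho α t / lam α t ^ 3) * Real.exp (|y| / 64)) ∧
      (∀ y, |v t y - Q y| ≤ (1 + kap α * M) * rho α t * Real.exp (|y| / 8)) :=
    fun t ht => hRB2 t ⟨ht.1, (hb t ht).2.1.2.trans lTR⟩
  refine ⟨?_, ?_, ?_⟩
  · -- Bg
    refine
      { hinf := ?_
        supp := ?_
        expn := ?_
        rbd := ?_
        rt := ?_
        res := ?_
        rsup := ?_
        b0 := ?_
        b1 := ?_
        b1' := ?_
        b2 := ?_
        bt := ?_ }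
    · intro t1 t2 ht1 ht12 ht2
      obtain ⟨-, -, hsmW⟩ : True ∧ True ∧ ContDiffOn ℝ (⊤ : ℕ∞)
          (fun q : ℝ × ℝ => outr α v q.1 q.2) (Set.Ioo 0 T1 ×ˢ Set.univ) :=
        ⟨trivial, trivial, by
          have hl : ContDiffOn ℝ (⊤ : ℕ∞) (fun q : ℝ × ℝ => lam α q.1)
              (Set.Ioo 0 T1 ×ˢ Set.univ) :=
            hsL.comp contDiff_fst.contDiffOn (fun q hq => hq.1.1)
          have hs : ContDiffOn ℝ (⊤ : ℕ∞) (fun q : ℝ × ℝ => sig α q.1)
              (Set.Ioo 0 T1 ×ˢ Set.univ) :=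
            hsS.comp contDiff_fst.contDiffOn (fun q hq => hq.1.1)
          have hlpos : ∀ q ∈ Set.Ioo 0 T1 ×ˢ (Set.univ : Set ℝ), 0 < lam α q.1 :=
            fun q hq => (hcurv q.1 hq.1.1).2.1
          have hsq : ContDiffOn ℝ (⊤ : ℕ∞) (fun q : ℝ × ℝ => Real.sqrt (lam α q.1))
              (Set.Ioo 0 T1 ×ˢ Set.univ) :=
            hl.sqrt (fun q hq => (hlpos q hq).ne')
          have hA : ContDiffOn ℝ (⊤ : ℕ∞) (fun q : ℝ × ℝ => 1 / Real.sqrt (lam α q.1))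
              (Set.Ioo 0 T1 ×ˢ Set.univ) :=
            contDiffOn_const.div hsq (fun q hq => (Real.sqrt_pos.mpr (hlpos q hq)).ne')
          have hB : ContDiffOn ℝ (⊤ : ℕ∞)
              (fun q : ℝ × ℝ => (q.2 - sig α q.1) / lam α q.1)
              (Set.Ioo 0 T1 ×ˢ Set.univ) :=
            (contDiff_snd.contDiffOn.sub hs).div hl (fun q hq => (hlpos q hq).ne')
          have hP : ContDiffOn ℝ (⊤ : ℕ∞)
              (fun q : ℝ × ℝ => ((q.1, (q.2 - sig α q.1) / lam α q.1) : ℝ × ℝ))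
              (Set.Ioo 0 T1 ×ˢ Set.univ) :=
            contDiff_fst.contDiffOn.prodMk hB
          exact hA.mul (hsm.comp hP (fun q hq => ⟨hq.1, Set.mem_univ _⟩))⟩
      have h2' : t2 < T1 := (hb t2 ⟨lt_of_lt_of_le ht1 ht12, ht2⟩).1.2
      exact hHC (outr α v) T1 hT1 hsmW hsup t1 t2 ht1 ht12 h2'
    · intro t ht x hx
      exact hsup t (hb t ht).1 x hx
    · intro t ht y
      rw [hinn t ht]
      have hr := (hb t ht).2.2.1.ne'
      show v t y = Q y + rho α t * kap α * Zp α R P y + rho α t ^ 2 * V2p α c1 ω2 y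
        + rho α t ^ 3 * ((v t y - Q y - rho α t * kap α * Zp α R P y
          - rho α t ^ 2 * V2p α c1 ω2 y) / rho α t ^ 3)
      field_simp
      ring
    · intro t ht
      refine ⟨(hRt t ht).1, fun k hk y => ((hRt t ht).2.1 k hk y).trans ?_⟩
      exact mul_le_mul_of_nonneg_right hCR (Real.exp_pos _).le
    · intro t ht y
      obtain ⟨d1, d2⟩ := (hRt t ht).2.2.1 y
      refine ⟨d1.hasDerivAt.hasDerivWithinAt, d2.trans ?_⟩
      have hl := (hcurv t ht.1).2.1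
      have hr := (hb t ht).2.2.1
      have : 0 ≤ rho α t / lam α t ^ 3 := by positivity
      exact mul_le_mul_of_nonneg_right (mul_le_mul_of_nonneg_right hCR this) (Real.exp_pos _).le
    · intro t ht
      have hr := (hb t ht).2.2.1
      rw [hresid t ht]
      refine (hI t ht).1.trans ?_
      have : 0 ≤ rho α t ^ (2 * N0) := by positivity
      nlinarith
    · intro t ht y
      rw [hresid t ht]
      exact (hI t ht).2.2.2 y
    · intro t ht y
      rw [hinn t ht]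
      have hr := (hb t ht).2.2.1
      refine (((hBt t ht).1 y).1).trans (mul_le_mul_of_nonneg_right hCB ?_)
      positivity
    · intro t ht y
      rw [hinn t ht]
      have hr := (hb t ht).2.2.1
      refine (((hBt t ht).1 y).2.1).trans (mul_le_mul_of_nonneg_right hCB ?_)
      positivity
    · intro t ht y
      rw [hinn t ht]
      have hr := (hb t ht).2.2.1
      refine (((hBt t ht).1 y).2.2.1).trans (mul_le_mul_of_nonneg_right hCB ?_)
      positivity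
    · intro t ht y
      rw [hinn t ht]
      have hr := (hb t ht).2.2.1
      refine (((hBt t ht).1 y).2.2.2.1).trans (mul_le_mul_of_nonneg_right hCB ?_)
      positivity
    · intro t ht y
      rw [hdw t ht y]
      have hr := (hb t ht).2.2.1
      refine (((hBt t ht).1 y).2.2.2.2.2.2.2.2.2).trans ?_
      have : 0 ≤ rho α t ^ ((5 : ℝ) / 4) := by positivity
      nlinarith
  · -- BgL
    refine
      { resLi := ?_
        resL := ?_
        b0L := ?_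
        tailL := ?_
        f0L2 := hL2
        f0S := hf0
        conv := ?_ }
    · intro t ht
      rw [hresid t ht]
      exact (hI t ht).2.1
    · intro t ht
      rw [hresid t ht]
      have hr := (hb t ht).2.2.1
      refine (hI t ht).2.2.1.trans (mul_le_mul_of_nonneg_right hCI ?_)
      positivity
    · intro t ht y hy
      rw [hinn t ht]
      have hr := (hb t ht).2.2.1
      exact (((hBt t ht).1 y).2.2.2.2.1 hy).trans (mul_le_mul_of_nonneg_right hCB2 hr.le)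
    · intro t ht y hy k hk
      rw [hinn t ht]
      exact (((hBt t ht).1 y).2.2.2.2.2.1 hy k hk).trans
        (mul_le_mul_of_nonneg_right hCB2 (Real.exp_pos _).le)
    · intro t ht
      have hr := (hb t ht).2.2.1
      have hr1 := (hb t ht).2.2.2
      obtain ⟨c1', c2'⟩ := hconv t ⟨ht.1, (hb t ht).2.1.2.trans lTL⟩
      refine ⟨c1', c2'.trans ?_⟩
      have h5 : rho α t ≤ rho α t ^ ((1 : ℝ) / 2) := by
        have := Real.rpow_le_rpow_of_exponent_ge hr hr1 (show (1 : ℝ) / 2 ≤ 1 by norm_num)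
        simpa using this
      calc CL * rho α t ≤ C2 * rho α t := mul_le_mul_of_nonneg_right hCL2 hr.le
        _ ≤ C2 * rho α t ^ ((1 : ℝ) / 2) := mul_le_mul_of_nonneg_left h5 hC20
  · -- BgY
    refine
      { d0 := ?_
        d1 := ?_
        d2 := ?_
        dt := ?_
        dexp := ?_
        lft := ?_
        rsup := ?_
        mass := ?_ }
    · intro t ht y
      rw [hinn t ht]
      exact ((hBt t ht).1 y).2.2.2.2.2.2.1
    · intro t ht y
      rw [hinn t ht]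
      exact ((hBt t ht).1 y).2.2.2.2.2.2.2.1
    · intro t ht y
      rw [hinn t ht]
      exact ((hBt t ht).1 y).2.2.2.2.2.2.2.2.1
    · intro t ht y
      rw [hdw t ht y]
      exact ((hBt t ht).1 y).2.2.2.2.2.2.2.2.2
    · intro t ht y
      rw [hinn t ht]
      exact (hRt t ht).2.2.2 y
    · intro t ht
      rw [hinn t ht]
      have hr := (hb t ht).2.2.1
      refine ⟨(hBt t ht).2.1, (hBt t ht).2.2.trans (mul_le_mul_of_nonneg_right hCB2 ?_)⟩
      positivity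
    · intro t ht y
      rw [hresid t ht]
      have hr := (hb t ht).2.2.1
      have hr1 := (hb t ht).2.2.2
      refine ((hI t ht).2.2.2 y).trans ?_
      have := Real.rpow_le_rpow_of_exponent_ge hr hr1 (show (1 : ℝ) ≤ (5 : ℝ) / 4 by norm_num)
      simpa using this
    · intro ε hε
      obtain ⟨δ, hδ, hδ2⟩ := mass_aux CL hε
      obtain ⟨Tε, hTε, hsmε⟩ := hsmall _ hδ
      refine ⟨min Tε TL, lt_min hTε hTL, fun t ht s hs => ?_⟩
      have ht1 := (hsmε t ht.1 (ht.2.trans (min_le_left _ _))).2.2.le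
      have hs1 := (hsmε s hs.1 (hs.2.trans (min_le_left _ _))).2.2.le
      refine (hmass t ⟨ht.1, ht.2.trans (min_le_right _ _)⟩ s
        ⟨hs.1, hs.2.trans (min_le_right _ _)⟩).trans ?_
      exact hδ2 _ _ (hcurv t ht.1).2.2.1.le (hcurv s hs.1).2.2.1.le ht1 hs1

end Pool.Agent.Helper41.KV
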