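import Pool.Agent.Helper41.KV.DefsC

/-!
# Project KV (`MP_66be51_an`), section C: goals (inner expansion, algebra of the right field)

Every goal has a complete proof in its doc string.  Submodules of `F3 = ℝ → ℝ → ℝ → ℝ` (pointwise
operations).  `MT`-closure is always proved by `Submodule.span_induction`.
-/

namespace Pool.Agent.Helper41.KV

open Real MeasureTheory

/-- **MCL1 (1.5 h).** Closure properties of `MT`, `MP`, `LT`, `LP`. Hypotheses allowed: `S_QF`, `S_ECL1`.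
PROOF.  `IsT` is closed under: sums; products (`q1 χ q2 χ = q1 q2 χ - q1 q2 χ(1-χ)` and
`χ_-(1-χ_-) = sech^2(2y)/4 ∈ IsE`; `IsE * polynomially bounded ⊂ IsE`; `q χ_-` is `IsP`); multiplication by `y`
(tail `X q`); `deriv` (tail `q'`, since `χ_-' = -sech^2(2y) ∈ IsE`); contains `IsE` (tail `0`).
`IsH` is closed under products, sums, `deriv`, contains constants.
Generators: `mono k n a h * mono k' n' a' h' = mono (k+k') (n+n') (a a') (h h')`;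
`dY (mono k n a h) = mono k n a' h + mono (k+1) n a h'`;
`Dop (mono k n a h) = 2α k mono k n a h + 2α mono (k+1) n (y a) h' + n mono k (n-1) a h`
(by `deriv` of products; `d/dr h(r y) = y h'(r y)`, `r * y a(y) h'(ry)`).
`dY`, `Dop` are additive and homogeneous on `MT 0`, `MP 0` because all members are smooth in each
variable; extend from generators by span induction (prove at the same time membership of the image and
differentiability of `y ↦ Φ r l y`, `r ↦ Φ r l y`, `l ↦ Φ r l y`). The same for `MP` with `a = y^i`. -/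
def S_MCL1 : Prop :=
  (∀ m m' : ℕ, m ≤ m' → MT m' ≤ MT m) ∧ (∀ m m' : ℕ, m ≤ m' → MP m' ≤ MP m) ∧
  (∀ (m m' : ℕ) (Φ Ψ : F3), Φ ∈ MT m → Ψ ∈ MT m' → (fun r l y => Φ r l y * Ψ r l y) ∈ MT (m + m')) ∧
  (∀ (m m' : ℕ) (Φ Ψ : F3), Φ ∈ MP m → Ψ ∈ MT m' → (fun r l y => Φ r l y * Ψ r l y) ∈ MT (m + m')) ∧
  (∀ (m m' : ℕ) (Φ Ψ : F3), Φ ∈ MP m → Ψ ∈ MP m' → (fun r l y => Φ r l y * Ψ r l y) ∈ MP (m + m')) ∧
  (∀ (m : ℕ) (Φ : F3), Φ ∈ MT m → dY Φ ∈ MT m) ∧ (∀ (m : ℕ) (Φ : F3), Φ ∈ MP m → dY Φ ∈ MP m) ∧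
  (∀ (α : ℝ) (m : ℕ) (Φ : F3), Φ ∈ MT m → Dop α Φ ∈ MT m) ∧
  (∀ (α : ℝ) (m : ℕ) (Φ : F3), Φ ∈ MP m → Dop α Φ ∈ MP m) ∧
  (∀ (m : ℕ) (Φ : F3), Φ ∈ MT m → (fun r l y => r * Φ r l y) ∈ MT (m + 1)) ∧
  (∀ (m : ℕ) (Φ : F3), Φ ∈ MP m → (fun r l y => r * Φ r l y) ∈ MP (m + 1)) ∧
  (∀ (m : ℕ) (Φ : F3), Φ ∈ MT m → (fun r l y => y * Φ r l y) ∈ MT m) ∧
  (∀ (m : ℕ) (Φ : F3), Φ ∈ MP m → (fun r l y => y * Φ r l y) ∈ MP m) ∧
  (∀ (m : ℕ) (e : ℝ → ℝ → ℝ), e ∈ LT → lif m e ∈ MT m) ∧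
  (∀ (m : ℕ) (e : ℝ → ℝ → ℝ), e ∈ LP → lif m e ∈ MP m) ∧
  ((fun _ _ y => Q y) ∈ MT 0) ∧
  (∀ Φ : F3, Φ ∈ MT 0 → ContDiff ℝ (⊤ : ℕ∞) (fun p : ℝ × ℝ × ℝ => Φ p.1 p.2.1 p.2.2)) ∧
  (∀ Φ : F3, Φ ∈ MP 0 → ContDiff ℝ (⊤ : ℕ∞) (fun p : ℝ × ℝ × ℝ => Φ p.1 p.2.1 p.2.2))

/-- **MCL2 (1 h).** Hadamard lemma and bounds. Hypotheses allowed: `S_QF`, `S_ECL1`.
PROOF.  For `h ∈ IsH`, `h(z) = h(0) + z h~(z)`, `h~(z) = ∫_0^1 h'(θ z) dθ` is smooth with bounded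
derivatives (`h~^{(k)}(z) = ∫_0^1 θ^k h^{(k+1)}(θz) dθ`; differentiate under the integral, or use
`dslope`/`contDiff` of parametric integrals), so
`mono k n a h = r^k l^n a(y) h(0) + mono (k+1) n (y a) h~`. If `k = m` the first part is `lif m` of an
element of `LT`; if `k > m` then `mono k n a h ∈ MT (m+1)` already (take `e = 0`). The same for `MP`.
Bounds: `|h| <= C`, `|a(y)| <= C e^{-y/2}` for `y >= 0` and `|a(y)| <= C (1+|y|)^n` for `y <= 0`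
(`χ_-(y) <= e^{-4y}` for `y >= 0`), `r^k <= r^m` for `0 < r <= 1`. -/
def S_MCL2 : Prop :=
  (∀ (m : ℕ) (Φ : F3), Φ ∈ MT m → ∃ e ∈ LT, Φ - lif m e ∈ MT (m + 1)) ∧
  (∀ (m : ℕ) (Φ : F3), Φ ∈ MP m → ∃ e ∈ LP, Φ - lif m e ∈ MP (m + 1)) ∧
  (∀ (m : ℕ) (Φ : F3), Φ ∈ MT m → ∃ (C : ℝ) (n : ℕ), ∀ r l y : ℝ, 0 < r → r ≤ 1 →
    (0 ≤ y → |Φ r l y| ≤ C * r ^ m * (1 + |l|) ^ n * Real.exp (-(y / 2))) ∧
    (y ≤ 0 → |Φ r l y| ≤ C * r ^ m * (1 + |l|) ^ n * (1 + |y|) ^ n)) ∧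
  (∀ (m : ℕ) (Φ : F3), Φ ∈ MP m → ∃ (C : ℝ) (n : ℕ), ∀ r l y : ℝ, 0 < r → r ≤ 1 →
    |Φ r l y| ≤ C * r ^ m * (1 + |l|) ^ n * (1 + |y|) ^ n)

/-- **EXP (1.5 h).** First two coefficients of the change of the bracket. Hypotheses allowed:
`S_MCL1`, `S_QF`, `S_ECL1`.
PROOF.  Put `S = F + w`, `ΔF = lif (j+1) f1 + lif (j+2) f2 + δ`, `Δw = lif (j+1) ω`, `ΔS = ΔF + Δw`.
Everything is smooth, so `dY`, `Dop` are additive. Linear terms of `Δw`: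
`r Dop Δw = lif (j+2) (2α(j+1) ω + ∂_l ω)` exactly; `dY(dY dY Δw - Δw)` = `lif (j+1)(ω_yy - ω)_y`;
`-(2α+1) r (Δw/2 + y dY Δw) = lif (j+2)(-(2α+1)(ω/2 + y ω_y))` exactly.
Nonlinear term, `N = (Q+S)^5 - F^5 - Q^5`:
`ΔN = 5Q^4 ΔS + 20 Q^3 S ΔS + [30 Q^2 S^2 ΔS + 20 Q S^3 ΔS] + [5 S^4 ΔS - 5 F^4 ΔF]
 + [10 (Q+S)^3 ΔS^2 - 10 F^3 ΔF^2] + [10 (Q+S)^2 ΔS^3 - 10 F^2 ΔF^3] + [5(Q+S)ΔS^4 - 5FΔF^4]
 + [ΔS^5 - ΔF^5]`   (check with `ring`).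
After expanding, every monomial in the square brackets contains `Q`, `w` or `Δw` (so it is in some
`MT`), and its order is `>= j+3`: `S, F, w` have order `>= 1`, `ΔS` etc. order `>= j+1`,
`2(j+1) >= j+3` because `j >= 1`. (`MP * MT ⊂ MT`, `MT * MT ⊂ MT`.)
`5Q^4 ΔS = lif (j+1)(5Q^4(f1+ω)) + lif (j+2)(5Q^4 f2) + MT (j+3)`;
`20Q^3 S ΔS = lif (j+2)(20 Q^3 (k+w1)(f1+ω)) + MT (j+3)` as `S = lif 1 (k+w1) + (MP 2) + (MT 2)`.
Apply `dY` (maps `MT (j+3)` to itself, `dY (lif m e) = lif m e_y`) and collect;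
`(ω_yy - ω + 5Q^4 ω)_y = -(Lop ω)_y`. -/
def S_EXP : Prop :=
  ∀ (α k : ℝ) (w1 : ℝ → ℝ) (j : ℕ) (F w δ : F3) (f1 f2 ω : ℝ → ℝ → ℝ),
    1 ≤ j → F ∈ MP 1 → w ∈ MT 1 → IsT w1 →
    F - lif 1 (fun _ _ => k) ∈ MP 2 → w - lif 1 (fun _ y => w1 y) ∈ MT 2 →
    f1 ∈ LP → f2 ∈ LP → ω ∈ LT → δ ∈ MP (j + 3) →
    Bk α (F + lif (j + 1) f1 + lif (j + 2) f2 + δ) (w + lif (j + 1) ω) - Bk α F w
      - lif (j + 1) (fun l y => deriv (fun y' => 5 * Q y' ^ 4 * f1 l y' - Lop (ω l) y') y)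
      - lif (j + 2) (fun l y => 2 * α * ((j : ℝ) + 1) * ω l y + deriv (fun l' => ω l' y) l
          + deriv (fun y' => 5 * Q y' ^ 4 * f2 l y'
              + 20 * Q y' ^ 3 * (k + w1 y') * (f1 l y' + ω l y')) y
          - (2 * α + 1) * (ω l y / 2 + y * deriv (ω l) y)) ∈ MT (j + 3)

/-- **BEXP (1 h).** The first two coefficients of the bracket for `w = ρ w_1`. Hypotheses allowed:
`S_MCL1`, `S_QF`, `S_ECL1`.
PROOF.  As EXP: with `S = F + w`, `N = (Q+S)^5 - F^5 - Q^5 = 5Q^4 S + 10 Q^3 S^2 + 10 Q^2 S^3 + 5 Q S^4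
+ (S^5 - F^5)`; the last three are in `MT 3`; `5Q^4S = lif 1 (5Q^4(k+w1)) + lif 2 (5Q^4 c y) + MT 3`;
`10Q^3S^2 = lif 2 (10Q^3(k+w1)^2) + MT 3`. `r Dop w = lif 2 (2α w1)`,
`-(2α+1) r (ΛQ + w/2 + y w_y) = lif 1 (-(2α+1)ΛQ) + lif 2 (-(2α+1)(w1/2 + y w1'))`. -/
def S_BEXP : Prop :=
  ∀ (α k c : ℝ) (w1 : ℝ → ℝ) (F : F3), IsT w1 →
    F - lif 1 (fun _ _ => k) - lif 2 (fun _ y => c * y) ∈ MP 3 →
    Bk α F (lif 1 (fun _ y => w1 y))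
      - lif 1 (fun _ y => deriv (fun y' => 5 * Q y' ^ 4 * k - Lop w1 y') y - (2 * α + 1) * Lam Q y)
      - lif 2 (fun _ y => 2 * α * w1 y
          + deriv (fun y' => 5 * Q y' ^ 4 * (c * y') + 10 * Q y' ^ 3 * (k + w1 y') ^ 2) y
          - (2 * α + 1) * (w1 y / 2 + y * deriv w1 y)) ∈ MT 3

/-- **PAIR (1.5 h).** The solvability integrals. Hypotheses allowed: `S_QF`, `S_ECL1`, `S_ECL2`.
PROOF.  Write `I = ∫Q`, `g = k_1 + w_1 = k_1(1+R) - (2α+1)P`, `k_1 = (2α+1)I/4`. `g` is smooth bounded,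
`g' ∈ IsE` (`P' ∈ IsE` because its tail polynomial is constant), `L g = k_1 - (2α+1) L P` (linearity,
`L(1+R) = 1`), `(Lg)' = -(2α+1)ΛQ`, `L R = 5Q^4`.
(a) `(5Q^4 k_1 - L w_1)' = (5Q^4k_1 - 5Q^4k_1 + (2α+1)LP)' = (2α+1)ΛQ`.
(I0) `∫ΛQ = I/2 - I = -I/2`, `∫Q^5 = I` (as `Q'' = Q - Q^5`), `∫RQ = I/4 - I = -3I/4`,
 `∫ w_1 Q = k_1(-3I/4) - (2α+1)I^2/16 = -k_1 I`.
(I1) for polynomially bounded smooth `u`: `∫ u' Q = -∫ u Q'`, and `20Q^3Q' = (5Q^4)'`.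
(I2) `∫ (5Q^4 y)' Q = -∫ 5Q^4 Q' y = -∫ (Q^5)' y = ∫Q^5 = I`.
(I3) For smooth `f` with `f' ∈ IsE`: `L(f') = (Lf)' + 20Q^3Q' f`. Take `f = 1+R`, `Lf = 1`:
 `20∫Q^3Q'(1+R) g = ∫ g L(R') = ∫ (Lg) R' = -∫ (Lg)' R = (2α+1)∫ΛQ R` (boundary terms vanish since
 `R, R' ∈ IsE`, `g, g', Lg` bounded).
(I4) `f = g`: `20∫Q^3Q' g^2 = ∫ g L(g') - ∫ g (Lg)' = ∫ (Lg) g' - ∫ g(Lg)' = [(Lg) g] - 2∫ g (Lg)'`,
 and `[(Lg)g]_{-∞}^{∞} = k_1^2 - (k_1 - (2α+1)I/2)^2 = k_1^2 - (-k_1)^2 = 0`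
 (limits: `R → 0`; `P, LP → 0` at `+∞`, `→ I/2` at `-∞`). So `-10∫Q^3Q'g^2 + (2α+1)∫ gΛQ = 0`.
(b) Pairing: `2α∫w_1Q + k_1(α-1/2) I - 10∫Q^3Q'g^2 + (2α+1)∫ w_1 ΛQ`
 (`∫(w_1/2+yw_1')Q = -∫ w_1 ΛQ`), and `∫ w_1ΛQ = ∫gΛQ + k_1 I/2`. Sum
 `= -2αk_1I + k_1(α-1/2)I + (2α+1)k_1I/2 = 0`.
(c) `(2α(j+1)q0+q1)(-3I/4) + (q1+β q0) I - q0 (2α+1)∫ΛQ R + (2α+1) q0 ∫ R ΛQ`
 (second last from (I3) with sign `∫(20Q^3 g(1+R))'Q = -20∫Q^3Q' g(1+R)`), with `β = α-1/2+2αj`: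
 `= (I/4) q1 + q0 I (-(3/2)α(j+1) + α - 1/2 + 2αj) = (I/4)(q1 + (2αj - 2α - 2) q0)`.
(d) `(5Q^4 q0 - q0 L R)' = 0`.
(e) with `v_2 = k_1(α-1/2) y + c1 + ω`, `(Lω)' = e2 + c1 (5Q^4)'` where `e2` is the integrand in (b):
 `(L v_2)' = k_1(α-1/2)(1 - (5Q^4y)') - c1(5Q^4)' + e2 + c1(5Q^4)'
  = 2α g + (10Q^3g^2)' - (2α+1)(g/2 + y g')` since `k_1(α-1/2) = 2αk_1 - (2α+1)k_1/2`. -/
def S_PAIR : Prop :=
  ∀ (α : ℝ) (R P : ℝ → ℝ), IsRP R P →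
    (IsT (wOne α R P)) ∧
    (∀ y, deriv (fun y' => 5 * Q y' ^ 4 * kOne α - Lop (wOne α R P) y') y = (2 * α + 1) * Lam Q y) ∧
    (∫ y, (2 * α * wOne α R P y
        + deriv (fun y' => 5 * Q y' ^ 4 * (kOne α * (α - 1/2) * y')
            + 10 * Q y' ^ 3 * (kOne α + wOne α R P y') ^ 2) y
        - (2 * α + 1) * (wOne α R P y / 2 + y * deriv (wOne α R P) y)) * Q y) = 0 ∧
    (∀ (j q0 q1 : ℝ), (∫ y, (2 * α * (j + 1) * (q0 * R y) + q1 * R y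
        + deriv (fun y' => 5 * Q y' ^ 4 * (y' * (q1 + (α - 1/2 + 2 * α * j) * q0))
            + 20 * Q y' ^ 3 * (kOne α + wOne α R P y') * (q0 + q0 * R y')) y
        - (2 * α + 1) * (q0 * R y / 2 + y * (q0 * deriv R y))) * Q y)
          = (∫ y, Q y) / 4 * (q1 + (2 * α * j - 2 * α - 2) * q0)) ∧
    (∀ y, deriv (fun y' => 5 * Q y' ^ 4 - Lop R y') y = 0) ∧
    (∀ (c1 : ℝ) (ω : ℝ → ℝ), IsT ω →
      (∀ y, deriv (Lop ω) y = (2 * α * wOne α R P y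
        + deriv (fun y' => 5 * Q y' ^ 4 * (kOne α * (α - 1/2) * y')
            + 10 * Q y' ^ 3 * (kOne α + wOne α R P y') ^ 2) y
        - (2 * α + 1) * (wOne α R P y / 2 + y * deriv (wOne α R P) y))
        + c1 * deriv (fun y' => 5 * Q y' ^ 4) y) →
      ∀ y, HasDerivAt (Lop (fun x => kOne α * (α - 1/2) * x + c1 + ω x))
        (2 * α * (kOne α + wOne α R P y)
          + deriv (fun y' => 10 * Q y' ^ 3 * (kOne α + wOne α R P y') ^ 2) y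
          - (2 * α + 1) * Lam (fun x => kOne α + wOne α R P x) y) y)

/-- **LSOLVE (0.8 h).** Solving coefficientwise in `ℓ`; polynomial dependence; scalar equation.
Hypotheses allowed: `S_SOLVEP`, `S_ECL1`, `S_ECL2`, `S_QF`.
PROOF.  Write `e = Σ_{n ≤ N} l^n a_n(y)` with `IsT a_n` (span induction; `IsT` closed under sums and
scalars). `∫ e(l,·)Q = Σ l^n ∫ a_n Q` is a polynomial in `l`, so it vanishes for all `l` iff all `∫ a_nQ = 0`.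
SOLVEP gives `w_n` with `(L w_n)' = a_n`, `IsT w_n`; `ω = Σ l^n w_n`. Scalar equation `q' + c q = g`:
if `c ≠ 0`, `q = Σ_{i} (-1)^i c^{-i-1} g^{(i)}`; if `c = 0`, a primitive of `g` (e.g. by linearity from
`X^n/(n+1)`...). -/
def S_LSOLVE : Prop :=
  (∀ e ∈ LT, (∀ l, (∫ y, e l y * Q y) = 0) →
    ∃ ω ∈ LT, ∀ l y, deriv (fun y' => Lop (ω l) y') y = e l y) ∧
  (∀ e ∈ LT, ∃ p : Polynomial ℝ, ∀ l, (∫ y, e l y * Q y) = p.eval l) ∧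
  (∀ (c : ℝ) (g : Polynomial ℝ), ∃ q : Polynomial ℝ, Polynomial.derivative q + Polynomial.C c * q = g) ∧
  (∀ (c : ℝ) (q : Polynomial ℝ) (a : ℝ), c ≠ 0 →
    Polynomial.derivative q + Polynomial.C c * q = Polynomial.C a → q = Polynomial.C (a / c))

/-- **CSTEP (1.5 h).** One step of the induction. Hypotheses: `S_MCL1`, `S_MCL2`, `S_EXP`, `S_PAIR`,
`S_LSOLVE`, `S_QF`, `S_ECL1`.
PROOF.  `I = ∫Q > 0`. By MCL2 `Bk F w - lif (j+1) e = lif (j+2) e'' + MT (j+3)` with `e'' ∈ LT`.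
For a polynomial `q` put `f1 = q(l)`, `f2 = y(q'(l) + β_j q(l))`, `ω = ω0 + q(l) R(y)`. EXP: the coefficient
of `ρ^{j+1}` of the new bracket is `e + (5Q^4q - L(ω0 + qR))_y = e - (Lω0)_y = 0` (by `S_PAIR` (d) and the
hypothesis), the coefficient of `ρ^{j+2}` is `e' = e'' + X(l,y)` with
`X = 2α(j+1)ω + ∂_lω + (5Q^4f2 + 20Q^3(k_1+w_1)(f1+ω))_y - (2α+1)(ω/2 + yω_y)`; it is in `LT`.
Its pairing with `Q` is `K(l) + (I/4)(q' + (2αj-2α-2) q)` where `K(l) = ∫ (e'' + X0) Q`, `X0` = `X` with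
`q = 0`, is a polynomial (LSOLVE). Choose `q` with `q' + c_j q = -(4/I) K`.
Last claim: if `F`, `w`, `ω0` do not depend on `l` then `e = (Lω0)_y` does not, and
`e''(l,y) = lim_{r→0+} r^{-(j+2)}(Bk F w - r^{j+1} e)(r,l,y)` (members of `MT (j+3)` are `O(r^{j+3})` for
fixed `l,y` by MCL2) does not depend on `l`; so `K` is constant, and if `c_j ≠ 0` then `q` is constant by
LSOLVE (4). (Used for `j = 1, 2`: `c_1 = -2`, `c_2 = 2α - 2`.) -/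
def S_CSTEP : Prop :=
  ∀ (α : ℝ) (R P : ℝ → ℝ), 0 < α → α < 1 → IsRP R P →
   ∀ (j : ℕ) (F w : F3) (e ω0 : ℝ → ℝ → ℝ), 1 ≤ j → F ∈ MP 1 → w ∈ MT 1 →
    F - lif 1 (fun _ _ => kOne α) ∈ MP 2 → w - lif 1 (fun _ y => wOne α R P y) ∈ MT 2 →
    e ∈ LT → ω0 ∈ LT → Bk α F w - lif (j + 1) e ∈ MT (j + 2) →
    (∀ l, (∫ y, e l y * Q y) = 0) → (∀ l y, deriv (fun y' => Lop (ω0 l) y') y = e l y) →
    ∃ q : Polynomial ℝ,
      (∀ δ ∈ MP (j + 3), ∃ e' ∈ LT, (∀ l, (∫ y, e' l y * Q y) = 0) ∧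
        Bk α (F + lif (j + 1) (fun l _ => q.eval l)
            + lif (j + 2) (fun l y => y * (q.derivative.eval l + (α - 1/2 + 2 * α * j) * q.eval l)) + δ)
          (w + lif (j + 1) (fun l y => ω0 l y + q.eval l * R y)) - lif (j + 2) e' ∈ MT (j + 3)) ∧
      (2 * α * (j : ℝ) - 2 * α - 2 ≠ 0 → (∀ r l y, F r l y = F r 0 y) →
        (∀ r l y, w r l y = w r 0 y) → (∀ l y, ω0 l y = ω0 0 y) → ∃ c : ℝ, q = Polynomial.C c)

/-- **CALL (1.5 h).** The inner expansion to every order. Hypotheses: `S_MCL1`, `S_MCL2`, `S_BEXP`,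
`S_PAIR`, `S_LSOLVE`, `S_CSTEP`, `S_SOLVEP`, `S_QF`, `S_ECL1`, `S_ECL2`.
PROOF.  Start: `p = (C k_1, 0, 0, ...)`, `w = lif 1 w_1`. BEXP with `k = k_1`, `c = k_1(α-1/2)` and
PAIR (a): `Bk (Fam p) w - lif 2 e_2 ∈ MT 3`, `e_2(y)` the function in PAIR (b), `∫e_2Q = 0`, `IsT e_2`
with tail polynomial the constant `2αw_∞ - (2α+1)w_∞/2 = (α-1/2) w_∞`, `w_∞ = lim_{-∞} w_1 = -(2α+1)I/2
= -2k_1`. SOLVEP gives `ω_2^0(y)` with `(Lω_2^0)' = e_2`, tail `q2` with `q2 - q2'' = P1`,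
`P1' = const = -2k_1(α-1/2)`; so `P1` is linear, hence `q2 = P1` has the form `a0 - 2k_1(α-1/2) X`
(a polynomial `q` with `q - q''` linear is linear). CSTEP with `j = 1`, `ω0(l,y) = ω_2^0(y)` gives the
constant `c1`; put `p_1 = C c1`, `ω_2 = ω_2^0 + c1 R`, `w := w + lif 2 ω_2`; the third hypothesis on `Fam`
gives the `δ`. PAIR (e) gives the equation of `v_2`.
Step `j = 2`: now `Fam p`, `w` do not depend on `l` (second hypothesis on `Fam`), so the leading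
coefficient `e` of the bracket (`= lim r^{-3} Bk`) does not; SOLVEP gives `ω_3^0(y)`; CSTEP with
`c_2 = 2α-2 ≠ 0` gives a constant `c2`; `p_2 = C c2`, `ω_3 = ω_3^0 + c2 R`.
Then for `j = 3, ..., J-1` CSTEP with `ω0` from LSOLVE, `p := update p j q`. All leading terms
(`F - lif 1 k_1 ∈ MP 2` etc.) are preserved. After the step `J-1` the bracket is in `MT (J+1)`.
The third order coefficient of `Fam p`: after step `2` `Fam p` does not depend on `l`, so its expansion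
coefficients (MCL2 three times; they are limits `r → 0` of independent functions) do not; the later steps
change `Fam p` by elements of `MP 4`. -/
def S_CALL : Prop :=
  ∀ (α : ℝ) (R P : ℝ → ℝ), 0 < α → α < 1 → IsRP R P →
   ∀ (J : ℕ) (Fam : (ℕ → Polynomial ℝ) → F3), 3 ≤ J →
    (∀ p, Fam p ∈ MP 1) →
    (∀ p, (∀ j, ∃ c : ℝ, p j = Polynomial.C c) → ∀ r l y, Fam p r l y = Fam p r 0 y) →
    (∀ p, p 0 = Polynomial.C (kOne α) → (∀ j, 1 ≤ j → p j = 0) →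
      Fam p - lif 1 (fun _ _ => kOne α) - lif 2 (fun _ y => kOne α * (α - 1/2) * y) ∈ MP 3) →
    (∀ p j q, 1 ≤ j → j < J → p j = 0 →
      Fam (Function.update p j q) - Fam p - lif (j + 1) (fun l _ => q.eval l)
        - lif (j + 2) (fun l y => y * (q.derivative.eval l + (α - 1/2 + 2 * α * j) * q.eval l))
          ∈ MP (j + 3)) →
    ∃ (p : ℕ → Polynomial ℝ) (c1 a0 : ℝ) (ω2 ω3 : ℝ → ℝ) (e3 : Polynomial ℝ) (w : F3),
      p 0 = Polynomial.C (kOne α) ∧ p 1 = Polynomial.C c1 ∧ (∀ j, J ≤ j → p j = 0) ∧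
      HasTail (Polynomial.C a0 - Polynomial.C (2 * kOne α * (α - 1/2)) * Polynomial.X) ω2 ∧
      (∀ y, HasDerivAt (Lop (fun x => kOne α * (α - 1/2) * x + c1 + ω2 x))
        (2 * α * (kOne α + wOne α R P y)
          + deriv (fun y' => 10 * Q y' ^ 3 * (kOne α + wOne α R P y') ^ 2) y
          - (2 * α + 1) * Lam (fun x => kOne α + wOne α R P x) y) y) ∧
      w ∈ MT 1 ∧ IsT ω3 ∧
      w - lif 1 (fun _ y => wOne α R P y) - lif 2 (fun _ y => ω2 y) - lif 3 (fun _ y => ω3 y) ∈ MT 4 ∧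
      (Fam p - lif 1 (fun _ _ => kOne α) - lif 2 (fun _ y => kOne α * (α - 1/2) * y + c1)
        - lif 3 (fun _ y => e3.eval y) ∈ MP 4) ∧
      Bk α (Fam p) w ∈ MT (J + 1)

/-- **PHI (1 h).** Algebra of the right field. No hypotheses.
PROOF.  (1) `natDegree (Phi n) <= n`, and `(Phi n).coeff i = (Phi m).coeff i` for `i <= n <= m` (the
increments are monomials of degree `> n`). (2) For `i < n`: `(Phi n).coeff (i+1) = (Phi (i+1)).coeff (i+1)`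
is the displayed expression in `Phi i`; `(Phi n).coeff i = (Phi i).coeff i`, and
`(Phi n ^5).coeff i = (Phi i ^5).coeff i` because `Phi n ≡ Phi i` modulo `X^{i+1}`.
(3) Let `𝔞 = Ideal.span {X 0 ^ j}`. `delt` maps `𝔞` into itself (`delt (X0^j G) = 2αj X0^j G + X0^j delt G`),
so does `bd`; by induction `Phi α (g0 + X0^j G) n - Phi α g0 n` has all coefficients in `𝔞`
(`a^5 - b^5 ∈ 𝔞[τ]` if `a - b ∈ 𝔞[τ]`). (4) the coefficient `0` is `g0`. (5) `pderiv 1` commutes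
with `delt α` (check on `X 0`, `X 1`: both orders give `0`; two derivations... the commutator of two
derivations is a derivation vanishing on the variables), so with `bd`, and `pderiv 1 (g^5) = 0` if `pderiv 1` of the
coefficients vanish (apply `pderiv 1` coefficientwise; it is a derivation). (6) `b ↦ eval ![a,b] g` is a
polynomial function with derivative `eval ![a,b] (pderiv 1 g) = 0`. -/
def S_PHI : Prop :=
  (∀ (α : ℝ) (g0 : XL) (n : ℕ), (Phi α g0 n).natDegree ≤ n) ∧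
  (∀ (α : ℝ) (g0 : XL) (i n m : ℕ), i ≤ n → n ≤ m → (Phi α g0 n).coeff i = (Phi α g0 m).coeff i) ∧
  (∀ (α : ℝ) (g0 : XL) (i n : ℕ), i < n →
    MvPolynomial.C ((i : ℝ) + 1) * (Phi α g0 n).coeff (i + 1)
      + (bd α (α - 1/2 - 3 * (i : ℝ) - 2) (bd α (α - 1/2 - 3 * (i : ℝ) - 1)
            (bd α (α - 1/2 - 3 * (i : ℝ)) ((Phi α g0 n).coeff i)))
          + MvPolynomial.X 0 ^ 2 * bd α (5 * (α - 1/2) - 3 * (i : ℝ)) ((Phi α g0 n ^ 5).coeff i)) = 0) ∧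
  (∀ (α : ℝ) (g0 : XL) (j : ℕ) (G : XL) (n i : ℕ),
    (Phi α (g0 + MvPolynomial.X 0 ^ j * G) n).coeff i - (Phi α g0 n).coeff i
      ∈ Ideal.span {(MvPolynomial.X 0 ^ j : XL)}) ∧
  (∀ (α : ℝ) (g0 : XL) (n : ℕ), (Phi α g0 n).coeff 0 = g0) ∧
  (∀ (α : ℝ) (g0 : XL) (n i : ℕ), MvPolynomial.pderiv 1 g0 = 0 →
    MvPolynomial.pderiv 1 ((Phi α g0 n).coeff i) = 0) ∧
  (∀ (g : XL) (a b b' : ℝ), MvPolynomial.pderiv 1 g = 0 →
    MvPolynomial.eval ![a, b] g = MvPolynomial.eval ![a, b'] g)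

/-- **AUXF (0.5 h).** The auxiliary functions exist.
PROOF.  Take a smooth bump `χ`, `χ = 1` on `|z| <= 1/2`, support in `|z| <= 3/4` and multiply
`(1+z)^γ` (smooth on `z > -1`) resp. `log(1+z)`, extended by zero: smooth with compact support, so all
derivatives are continuous with compact support, hence bounded. -/
def S_AUXF : Prop :=
  ∀ α : ℝ, ∃ h0 h1 h2 h3 : ℝ → ℝ, IsAux α h0 h1 h2 h3

/-- **FHAM (1.3 h).** The family `Fh` satisfies the three hypotheses of `S_CALL`. Hypotheses: `S_PHI`,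
`S_MCL1`, `S_MCL2`, `S_QF`, `S_ECL1`.
PROOF.  Evaluate: `Fh = Σ_{i ≤ n} r h0(ry) (r^2 h1(ry)/(4α+3))^i ev(g_i)`, where `ev(g_i)` is a finite sum of
`(r h2(ry))^a (l + h3(ry))^b`, so a finite sum of `r^a l^{b'} h(ry)` with `IsH h`: `Fh ∈ MP 1`, and the
part `i >= 1` is in `MP 3`. (H2) `g0 = C k_1` (`J >= 1`): the part `i = 0` is `k_1 r h0(ry)`; Hadamard twice:
`h0(z) = h0(0) + h0'(0) z + z^2 h~~(z)`, `h0(0) = 1`, `h0'(0) = α - 1/2`, i.e.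
`k_1 r h0(ry) = k_1 r + k_1(α-1/2) r^2 y + r^3 y^2(..)`. Independence of `l` (all `p_j` constant,
so `pderiv 1 (gZero p J) = 0`): `S_PHI` (5),(6).
(H3) `gZero (update p j q) J = gZero p J + X0^j (aeval (X 1) q)` for `j < J`, `p j = 0`. The difference of
the coefficients `i >= 1` lies in `(X0^j)` (`S_PHI` (4)), so contributes `r * r^{2i} * r^j (..) ∈ MP (j+3)`.
The difference of the `i = 0` part is `r h0(z) (r h2(z))^j q(l + h3(z))`, `z = r y`: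
`= r^{j+1} H(z,l)`, `H(z,l) = h0(z) h2(z)^j q(l+h3(z)) = Σ_b q_b Σ binom.. l^{b'} h(z)`, and Hadamard twice:
`H(0,l) = q(l)`, `∂_zH(0,l) = (α-1/2+2αj) q(l) + q'(l)` since near `0` `h0 h2^j = (1+z)^{α-1/2+2αj}`,
`h3 = log(1+z)`. -/
def S_FHAM : Prop :=
  ∀ (α : ℝ) (h0 h1 h2 h3 : ℝ → ℝ) (n J : ℕ), 0 < α → α < 1 → IsAux α h0 h1 h2 h3 → 1 ≤ J →
    (∀ p, Fh α h0 h1 h2 h3 n (gZero p J) ∈ MP 1) ∧
    (∀ p, (∀ j, ∃ c : ℝ, p j = Polynomial.C c) →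
      ∀ r l y, Fh α h0 h1 h2 h3 n (gZero p J) r l y = Fh α h0 h1 h2 h3 n (gZero p J) r 0 y) ∧
    (∀ p, p 0 = Polynomial.C (kOne α) → (∀ j, 1 ≤ j → p j = 0) →
      Fh α h0 h1 h2 h3 n (gZero p J) - lif 1 (fun _ _ => kOne α)
          - lif 2 (fun _ y => kOne α * (α - 1/2) * y) ∈ MP 3) ∧
    (∀ p j q, 1 ≤ j → j < J → p j = 0 →
      Fh α h0 h1 h2 h3 n (gZero (Function.update p j q) J) - Fh α h0 h1 h2 h3 n (gZero p J)
        - lif (j + 1) (fun l _ => q.eval l)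
        - lif (j + 2) (fun l y => y * (q.derivative.eval l + (α - 1/2 + 2 * α * j) * q.eval l))
          ∈ MP (j + 3))

end Pool.Agent.Helper41.KV
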